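import Pool.Graph.R_seed8.TH57.Thr.Small
import Pool.Graph.R_seed8.TH6.LF.Bar

set_option autoImplicit false
set_option linter.unusedSectionVars false

/-! Every self-adjoint matrix over an integral group ring is of the form `V* D V`, where `D` is a
diagonal matrix with entries `± s`, `s ^ 2 = 1`. -/

namespace Pool.Agent.H52.SW

open Matrix TH57.Thr TH6.LF

variable {G : Type} [Group G] {κ : Type} [Fintype κ] [DecidableEq κ]

/-- the diagonal matrix with entries `ε k * s k` -/
noncomputable def dia {p : Type} [DecidableEq p] (s : p → G) (ε : p → ℤ) :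
    Matrix p p (MonoidAlgebra ℤ G) := Matrix.diagonal fun k => MonoidAlgebra.single (s k) (ε k)

/-- signs and involutions -/
def Sgn {p : Type} (s : p → G) (ε : p → ℤ) : Prop :=
  (∀ k, s k * s k = 1) ∧ ∀ k, ε k = 1 ∨ ε k = -1

/-- `A = V* D V` -/
def Dec (A : Matrix κ κ (MonoidAlgebra ℤ G)) : Prop :=
  ∃ (p : Type) (_ : Fintype p) (_ : DecidableEq p) (V : Matrix p κ (MonoidAlgebra ℤ G))
    (s : p → G) (ε : p → ℤ), Sgn s ε ∧ A = adj V * dia s ε * V

theorem dec_entry {p : Type} [Fintype p] [DecidableEq p] (V : Matrix p κ (MonoidAlgebra ℤ G))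
    (s : p → G) (ε : p → ℤ) (i j : κ) :
    (adj V * dia s ε * V) i j
      = ∑ k, bar (V k i) * MonoidAlgebra.single (s k) (ε k) * V k j := by
  unfold dia
  rw [Matrix.mul_apply]
  refine Finset.sum_congr rfl fun k _ => ?_
  rw [Matrix.mul_diagonal, adj_apply]

theorem Dec.add {A B : Matrix κ κ (MonoidAlgebra ℤ G)} (hA : Dec A) (hB : Dec B) :
    Dec (A + B) := by
  obtain ⟨p, i1, i2, V, s, ε, hs, rfl⟩ := hA
  obtain ⟨p', i3, i4, V', s', ε', hs', rfl⟩ := hB
  refine ⟨p ⊕ p', inferInstance, inferInstance, fromRows V V', Sum.elim s s', Sum.elim ε ε',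
    ⟨?_, ?_⟩, ?_⟩
  · rintro (k | k)
    · exact hs.1 k
    · exact hs'.1 k
  · rintro (k | k)
    · exact hs.2 k
    · exact hs'.2 k
  · ext1 i j
    rw [Matrix.add_apply, dec_entry, dec_entry, dec_entry, Fintype.sum_sum_type]
    rfl

theorem Dec.neg {A : Matrix κ κ (MonoidAlgebra ℤ G)} (hA : Dec A) : Dec (-A) := by
  obtain ⟨p, i1, i2, V, s, ε, hs, rfl⟩ := hA
  refine ⟨p, inferInstance, inferInstance, V, s, fun k => -ε k, ⟨hs.1, fun k => ?_⟩, ?_⟩
  · rcases hs.2 k with h | h
    · right; change -ε k = -1; rw [h]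
    · left; change -ε k = 1; rw [h]; rfl
  · ext1 i j
    rw [Matrix.neg_apply, dec_entry, dec_entry, ← Finset.sum_neg_distrib]
    refine Finset.sum_congr rfl fun k _ => ?_
    rw [MonoidAlgebra.single_neg, mul_neg, neg_mul]

theorem Dec.zero : Dec (0 : Matrix κ κ (MonoidAlgebra ℤ G)) := by
  refine ⟨Empty, inferInstance, inferInstance, 0, Empty.elim, Empty.elim,
    ⟨fun k => k.elim, fun k => k.elim⟩, ?_⟩
  ext1 i j
  rw [dec_entry]
  simp

theorem Dec.sq {p : Type} [Fintype p] [DecidableEq p] (V : Matrix p κ (MonoidAlgebra ℤ G)) :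
    Dec (adj V * V) := by
  refine ⟨p, inferInstance, inferInstance, V, fun _ => 1, fun _ => 1,
    ⟨fun _ => one_mul 1, fun _ => Or.inl rfl⟩, ?_⟩
  ext1 i j
  rw [dec_entry, Matrix.mul_apply]
  refine Finset.sum_congr rfl fun k _ => ?_
  rw [← MonoidAlgebra.one_def, mul_one, adj_apply]

theorem Dec.unit (i : κ) (g : G) (hg : g * g = 1) :
    Dec (Matrix.single i i (MonoidAlgebra.single g (1 : ℤ))) := by
  refine ⟨Unit, inferInstance, inferInstance, fun _ j => if j = i then 1 else 0, fun _ => g,
    fun _ => 1, ⟨fun _ => hg, fun _ => Or.inl rfl⟩, ?_⟩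
  ext1 a b
  rw [dec_entry]
  simp only [Finset.univ_unique, Finset.sum_singleton, Matrix.single_apply]
  by_cases ha : a = i
  · by_cases hb : b = i
    · subst ha; subst hb; simp
    · have hb' : ¬ i = b := fun h => hb h.symm
      simp [hb, hb']
  · have ha' : ¬ i = a := fun h => ha h.symm
    simp [ha, ha']

theorem Dec.units (i : κ) (g : G) (hg : g * g = 1) (z : ℤ) :
    Dec (Matrix.single i i (MonoidAlgebra.single g z)) := by
  induction z using Int.induction_on with
  | zero => simpa using Dec.zero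
  | succ z ih =>
    rw [MonoidAlgebra.single_add, Matrix.single_add]
    exact ih.add (Dec.unit i g hg)
  | pred z ih =>
    rw [sub_eq_add_neg, MonoidAlgebra.single_add, Matrix.single_add]
    refine ih.add ?_
    have h1 := (Dec.unit i g hg).neg
    convert h1 using 1
    ext1 a b
    simp only [Matrix.neg_apply, Matrix.single_apply]
    split_ifs
    · rw [← MonoidAlgebra.single_neg]
    · simp

theorem Dec.sum {α : Type} (s : Finset α) (F : α → Matrix κ κ (MonoidAlgebra ℤ G))
    (h : ∀ a ∈ s, Dec (F a)) : Dec (∑ a ∈ s, F a) := by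
  classical
  induction s using Finset.induction_on with
  | empty => simpa using Dec.zero
  | insert a s ha ih =>
    rw [Finset.sum_insert ha]
    exact (h a (Finset.mem_insert_self _ _)).add (ih fun b hb => h b (Finset.mem_insert_of_mem hb))

/-- matrices of the form `U + U*` -/
theorem Dec.add_adj (U : Matrix κ κ (MonoidAlgebra ℤ G)) : Dec (U + adj U) := by
  have h1 : U + adj U = adj (1 + U) * (1 + U) + -(adj (1 : Matrix κ κ (MonoidAlgebra ℤ G)) * 1)
      + -(adj U * U) := by
    rw [adj_add, adj_one]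
    noncomm_ring
  rw [h1]
  exact ((Dec.sq _).add (Dec.sq _).neg).add (Dec.sq _).neg

/-- Every self-adjoint matrix is of the form `V* D V`. -/
theorem dec_of_selfAdj (A : Matrix κ κ (MonoidAlgebra ℤ G)) (hA : adj A = A) : Dec A := by
  classical
  let r : (κ × κ × G) → (κ × κ × G) → Prop := WellOrderingRel
  let τ : (κ × κ × G) → (κ × κ × G) := fun x => (x.2.1, x.1, x.2.2⁻¹)
  have hcs : ∀ i j g, (A i j).coeff g = (A j i).coeff g⁻¹ := by
    intro i j g
    conv_lhs => rw [← hA]
    rw [adj_apply, coeff_bar]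
  let U : Matrix κ κ (MonoidAlgebra ℤ G) := fun i j =>
    MonoidAlgebra.ofCoeff ((A i j).coeff.filter fun g => r (i, j, g) (j, i, g⁻¹))
  let S : Matrix κ κ (MonoidAlgebra ℤ G) := fun i j =>
    MonoidAlgebra.ofCoeff ((A i j).coeff.filter fun g => (i, j, g) = (j, i, g⁻¹))
  have hU : ∀ i j g, (U i j).coeff g = if r (i, j, g) (j, i, g⁻¹) then (A i j).coeff g else 0 := by
    intro i j g
    simp only [U, MonoidAlgebra.coeff_ofCoeff, Finsupp.filter_apply]
  have hS : ∀ i j g, (S i j).coeff g = if (i, j, g) = (j, i, g⁻¹) then (A i j).coeff g else 0 := by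
    intro i j g
    simp only [S, MonoidAlgebra.coeff_ofCoeff, Finsupp.filter_apply]
  have hAUS : A = U + adj U + S := by
    ext i j g
    rw [Matrix.add_apply, Matrix.add_apply, MonoidAlgebra.coeff_add, MonoidAlgebra.coeff_add,
      Finsupp.add_apply, Finsupp.add_apply, adj_apply, coeff_bar, hU, hU, hS, inv_inv,
      ← hcs i j g]
    rcases trichotomous_of r (i, j, g) (j, i, g⁻¹) with h | h | h
    · have h1 : ¬ r (j, i, g⁻¹) (i, j, g) := fun h' => (irrefl_of r _) (trans_of r h h')
      have h2 : ¬ (i, j, g) = (j, i, g⁻¹) := by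
        intro h'
        rw [← h'] at h
        exact irrefl_of r _ h
      rw [if_pos h, if_neg h1, if_neg h2]
      simp
    · have h1 : ¬ r (i, j, g) (j, i, g⁻¹) := by
        rw [← h]; exact irrefl_of r _
      have h2 : ¬ r (j, i, g⁻¹) (i, j, g) := by
        rw [← h]; exact irrefl_of r _
      rw [if_neg h1, if_neg h2, if_pos h]
      simp
    · have h1 : ¬ r (i, j, g) (j, i, g⁻¹) := fun h' => (irrefl_of r _) (trans_of r h h')
      have h2 : ¬ (i, j, g) = (j, i, g⁻¹) := by
        intro h'
        rw [← h'] at h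
        exact irrefl_of r _ h
      rw [if_neg h1, if_pos h, if_neg h2]
      simp
  have hSsum : S = ∑ i, ∑ g ∈ (S i i).coeff.support,
      Matrix.single i i (MonoidAlgebra.single g ((S i i).coeff g)) := by
    ext1 a b
    rw [Matrix.sum_apply]
    by_cases hab : a = b
    · subst hab
      rw [Finset.sum_eq_single a]
      · rw [Matrix.sum_apply]
        simp only [Matrix.single_apply_same]
        ext g
        rw [MonoidAlgebra.coeff_sum, Finsupp.finsetSum_apply]
        by_cases hg : g ∈ (S a a).coeff.support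
        · rw [Finset.sum_eq_single g]
          · simp
          · intro g' _ hne
            simp [hne]
          · intro h; exact absurd hg h
        · rw [Finsupp.notMem_support_iff.1 hg, Finset.sum_eq_zero]
          intro g' hg'
          have : g' ≠ g := fun h => hg (h ▸ hg')
          simp [this]
      · intro i _ hi
        rw [Matrix.sum_apply]
        refine Finset.sum_eq_zero fun g _ => ?_
        rw [Matrix.single_apply_of_ne]
        exact fun h => hi h.1
      · simp
    · have h1 : S a b = 0 := by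
        ext g
        rw [hS, if_neg]
        · rfl
        · intro h
          exact hab (Prod.ext_iff.1 h).1
      rw [h1]
      symm
      refine Finset.sum_eq_zero fun i _ => ?_
      rw [Matrix.sum_apply]
      refine Finset.sum_eq_zero fun g _ => ?_
      rw [Matrix.single_apply_of_ne]
      rintro ⟨h2, h3⟩
      exact hab (h2.symm.trans h3)
  rw [hAUS, hSsum]
  refine (Dec.add_adj U).add ?_
  refine Dec.sum _ _ fun i _ => Dec.sum _ _ fun g hg => Dec.units i g ?_ _
  rw [Finsupp.mem_support_iff, hS] at hg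
  have h1 : (i, i, g) = (i, i, g⁻¹) := by
    by_contra h
    exact hg (if_neg h)
  have h2 : g = g⁻¹ := by
    have := (Prod.ext_iff.1 h1).2
    exact (Prod.ext_iff.1 this).2
  calc g * g = g * g⁻¹ := by rw [← h2]
    _ = 1 := mul_inv_cancel g

end Pool.Agent.H52.SW
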