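import Pool.Graph.R_seed8.TH57.Thr.Growth

set_option autoImplicit false
set_option linter.style.haveILetI false

/-! Tripods in graphs which need not be bipartite. -/

namespace Pool.Agent.H52.SW

open SimpleGraph TH57.Thr

variable {V : Type*}

/-- The graph contains a tripod with geodesic arms of length `N`, such that vertices of different
arms have distance at least two, except possibly the first vertices of the arms. -/
def HasTri (Γ : SimpleGraph V) (N : ℕ) : Prop :=
  ∃ (a : Fin 3 → ℕ → V) (o : V), (∀ i, a i 0 = o) ∧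
    (∀ i k l, k ≤ N → l ≤ N → Γ.dist (a i k) (a i l) = (k - l) + (l - k)) ∧
    (∀ i j k l, i ≠ j → 1 ≤ k → k ≤ N → 1 ≤ l → l ≤ N →
      2 ≤ Γ.dist (a i k) (a j l) ∨ (k = 1 ∧ l = 1 ∧ a i k ≠ a j l))

/-- Three arms given by functions: reduction to three pairs. -/
theorem hasTri_of {Γ : SimpleGraph V} {N : ℕ} (p q r : ℕ → V) (hpq : p 0 = r 0) (hqr : q 0 = r 0)
    (h1 : ∀ k l, k ≤ N → l ≤ N → Γ.dist (p k) (p l) = (k - l) + (l - k))
    (h2 : ∀ k l, k ≤ N → l ≤ N → Γ.dist (q k) (q l) = (k - l) + (l - k))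
    (h3 : ∀ k l, k ≤ N → l ≤ N → Γ.dist (r k) (r l) = (k - l) + (l - k))
    (c01 : ∀ k l, 1 ≤ k → k ≤ N → 1 ≤ l → l ≤ N →
      2 ≤ Γ.dist (p k) (q l) ∨ (k = 1 ∧ l = 1 ∧ p k ≠ q l))
    (c02 : ∀ k l, 1 ≤ k → k ≤ N → 1 ≤ l → l ≤ N →
      2 ≤ Γ.dist (p k) (r l) ∨ (k = 1 ∧ l = 1 ∧ p k ≠ r l))
    (c12 : ∀ k l, 1 ≤ k → k ≤ N → 1 ≤ l → l ≤ N →
      2 ≤ Γ.dist (q k) (r l) ∨ (k = 1 ∧ l = 1 ∧ q k ≠ r l)) : HasTri Γ N := by
  have sym : ∀ (f g : ℕ → V), (∀ k l, 1 ≤ k → k ≤ N → 1 ≤ l → l ≤ N →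
      2 ≤ Γ.dist (f k) (g l) ∨ (k = 1 ∧ l = 1 ∧ f k ≠ g l)) →
      ∀ k l, 1 ≤ k → k ≤ N → 1 ≤ l → l ≤ N →
      2 ≤ Γ.dist (g k) (f l) ∨ (k = 1 ∧ l = 1 ∧ g k ≠ f l) := by
    intro f g h k l hk hk' hl hl'
    rcases h l k hl hl' hk hk' with h | ⟨h, h', h''⟩
    · left; rw [SimpleGraph.dist_comm]; exact h
    · right; exact ⟨h', h, fun e => h'' e.symm⟩
  refine ⟨![p, q, r], r 0, ?_, ?_, ?_⟩
  · intro i
    fin_cases i
    · exact hpq
    · exact hqr
    · rfl
  · intro i
    fin_cases i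
    · exact h1
    · exact h2
    · exact h3
  · intro i j k l hij hk0 hk hl0 hl
    fin_cases i <;> fin_cases j
    · exact absurd rfl hij
    · exact c01 k l hk0 hk hl0 hl
    · exact c02 k l hk0 hk hl0 hl
    · exact sym p q c01 k l hk0 hk hl0 hl
    · exact absurd rfl hij
    · exact c12 k l hk0 hk hl0 hl
    · exact sym p r c02 k l hk0 hk hl0 hl
    · exact sym q r c12 k l hk0 hk hl0 hl
    · exact absurd rfl hij

/-- A vertex far away from the middle part of a geodesic gives a tripod. -/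
theorem tri_of_far {Γ : SimpleGraph V} (hΓ : Γ.Connected) (γ : ℕ → V) (L N : ℕ)
    (hγ : ∀ i j, i ≤ L → j ≤ L → Γ.dist (γ i) (γ j) = (i - j) + (j - i)) (u : V) (i₀ : ℕ)
    (h1 : N + 2 ≤ i₀) (h2 : i₀ + N + 2 ≤ L)
    (hmin : ∀ l, l ≤ L → Γ.dist (γ i₀) u ≤ Γ.dist (γ l) u) (hfar : N + 1 ≤ Γ.dist (γ i₀) u) :
    HasTri Γ N := by
  obtain ⟨p, hp0, hpk, hp⟩ := exists_geod hΓ (γ i₀) u
  set k := Γ.dist (γ i₀) u with hk
  have hpγ : ∀ a l, a ≤ k → l ≤ L → a ≤ Γ.dist (p a) (γ l) := by
    intro a l ha hl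
    have a1 := hmin l hl
    have a2 := hΓ.dist_triangle (u := γ l) (v := p a) (w := u)
    have a3 := hp a k ha le_rfl
    rw [hpk] at a3
    rw [SimpleGraph.dist_comm (u := p a)]
    omega
  by_cases hA : ∃ i, i + 2 ≤ L ∧ N ≤ i + 1 ∧ i + 1 + N ≤ L ∧ Γ.Adj (p 1) (γ i) ∧
      Γ.Adj (p 1) (γ (i + 2))
  · obtain ⟨i, hi1, hi2, hi3, hadj1, hadj2⟩ := hA
    have e1 := SimpleGraph.dist_eq_one_iff_adj.2 hadj1
    have e2 := SimpleGraph.dist_eq_one_iff_adj.2 hadj2
    have dlow : ∀ l, 1 ≤ l → l ≤ N → Γ.dist (p 1) (γ (i + 1 - l)) = l := by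
      intro l hl0 hl
      apply le_antisymm
      · have := hΓ.dist_triangle (u := p 1) (v := γ i) (w := γ (i + 1 - l))
        rw [hγ i (i + 1 - l) (by omega) (by omega)] at this
        omega
      · have := hΓ.dist_triangle (u := γ (i + 2)) (v := p 1) (w := γ (i + 1 - l))
        rw [hγ (i + 2) (i + 1 - l) (by omega) (by omega), SimpleGraph.dist_comm, e2] at this
        omega
    have dhigh : ∀ l, 1 ≤ l → l ≤ N → Γ.dist (p 1) (γ (i + 1 + l)) = l := by
      intro l hl0 hl
      apply le_antisymm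
      · have := hΓ.dist_triangle (u := p 1) (v := γ (i + 2)) (w := γ (i + 1 + l))
        rw [hγ (i + 2) (i + 1 + l) (by omega) (by omega)] at this
        omega
      · have := hΓ.dist_triangle (u := γ i) (v := p 1) (w := γ (i + 1 + l))
        rw [hγ i (i + 1 + l) (by omega) (by omega), SimpleGraph.dist_comm, e1] at this
        omega
    refine hasTri_of (fun k => if k = 0 then p 1 else γ (i + 1 - k))
      (fun k => if k = 0 then p 1 else γ (i + 1 + k)) (fun k => p (k + 1)) (by simp) (by simp)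
      ?_ ?_ ?_ ?_ ?_ ?_
    · intro k' l' hk' hl'
      split_ifs with ha hb hb
      · simp [ha, hb]
      · rw [dlow l' (by omega) hl']; omega
      · rw [SimpleGraph.dist_comm, dlow k' (by omega) hk']; omega
      · rw [hγ _ _ (by omega) (by omega)]; omega
    · intro k' l' hk' hl'
      split_ifs with ha hb hb
      · simp [ha, hb]
      · rw [dhigh l' (by omega) hl']; omega
      · rw [SimpleGraph.dist_comm, dhigh k' (by omega) hk']; omega
      · rw [hγ _ _ (by omega) (by omega)]; omega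
    · intro k' l' hk' hl'
      rw [hp _ _ (by omega) (by omega)]; omega
    · intro k' l' hk0 hk' hl0 hl'
      left
      rw [if_neg (by omega), if_neg (by omega), hγ _ _ (by omega) (by omega)]
      omega
    · intro k' l' hk0 hk' hl0 hl'
      left
      rw [if_neg (by omega), SimpleGraph.dist_comm]
      have := hpγ (l' + 1) (i + 1 - k') (by omega) (by omega)
      omega
    · intro k' l' hk0 hk' hl0 hl'
      left
      rw [if_neg (by omega), SimpleGraph.dist_comm]
      have := hpγ (l' + 1) (i + 1 + k') (by omega) (by omega)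
      omega
  · -- case B
    have hadj0 : Γ.Adj (p 1) (γ i₀) := by
      rw [← SimpleGraph.dist_eq_one_iff_adj, ← hp0, hp 1 0 (by omega) (by omega)]
    have hB : ∀ l, l ≤ L → Γ.Adj (p 1) (γ l) → l = i₀ ∨ l + 1 = i₀ ∨ i₀ + 1 = l := by
      intro l hl hadj
      have e1 := SimpleGraph.dist_eq_one_iff_adj.2 hadj
      have e0 := SimpleGraph.dist_eq_one_iff_adj.2 hadj0
      have e2 := hΓ.dist_triangle (u := γ l) (v := p 1) (w := γ i₀)
      rw [hγ l i₀ hl (by omega), SimpleGraph.dist_comm, e1, e0] at e2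
      have e3 : l = i₀ ∨ l + 1 = i₀ ∨ i₀ + 1 = l ∨ l + 2 = i₀ ∨ i₀ + 2 = l := by omega
      rcases e3 with h | h | h | h | h
      · exact Or.inl h
      · exact Or.inr (Or.inl h)
      · exact Or.inr (Or.inr h)
      · exfalso
        apply hA
        refine ⟨l, by omega, by omega, by omega, hadj, ?_⟩
        rw [h]; exact hadj0
      · exfalso
        apply hA
        refine ⟨i₀, by omega, by omega, by omega, hadj0, ?_⟩
        rw [h]; exact hadj
    have cg : ∀ k' l', 1 ≤ k' → k' ≤ N → l' ≤ L → l' ≠ i₀ →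
        2 ≤ Γ.dist (p k') (γ l') ∨ (k' = 1 ∧ (l' + 1 = i₀ ∨ i₀ + 1 = l') ∧ p k' ≠ γ l') := by
      intro k' l' hk0 hk' hl' hne
      rcases Nat.lt_or_ge k' 2 with h | h
      · have : k' = 1 := by omega
        subst this
        have a1 := hpγ 1 l' (by omega) hl'
        by_cases a2 : Γ.dist (p 1) (γ l') = 1
        · right
          refine ⟨rfl, ?_, ?_⟩
          · rcases hB l' hl' (SimpleGraph.dist_eq_one_iff_adj.1 a2) with h' | h'
            · exact absurd h' hne
            · exact h'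
          · intro h'
            rw [h', SimpleGraph.dist_self] at a2
            omega
        · left; omega
      · left
        have := hpγ k' l' (by omega) hl'
        omega
    refine hasTri_of (fun k => γ (i₀ - k)) (fun k => γ (i₀ + k)) (fun k => p k)
      (by simp [hp0]) (by simp [hp0]) ?_ ?_ ?_ ?_ ?_ ?_
    · intro k' l' hk' hl'
      rw [hγ _ _ (by omega) (by omega)]; omega
    · intro k' l' hk' hl'
      rw [hγ _ _ (by omega) (by omega)]; omega
    · intro k' l' hk' hl'
      rw [hp _ _ (by omega) (by omega)]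
    · intro k' l' hk0 hk' hl0 hl'
      left
      rw [hγ _ _ (by omega) (by omega)]
      omega
    · intro k' l' hk0 hk' hl0 hl'
      rw [SimpleGraph.dist_comm]
      rcases cg l' (i₀ - k') hl0 hl' (by omega) (by omega) with h | ⟨h3, h4, h5⟩
      · exact Or.inl h
      · exact Or.inr ⟨by omega, h3, fun e => h5 e.symm⟩
    · intro k' l' hk0 hk' hl0 hl'
      rw [SimpleGraph.dist_comm]
      rcases cg l' (i₀ + k') hl0 hl' (by omega) (by omega) with h | ⟨h3, h4, h5⟩
      · exact Or.inl h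
      · exact Or.inr ⟨by omega, h3, fun e => h5 e.symm⟩

theorem tri_norm [DecidableEq V] {Γ : SimpleGraph V}
    (W : V → V → ℝ) (hsymm : ∀ u v, W u v = W v u) (hWΓ : ∀ u v, u ≠ v → ¬ Γ.Adj u v → W u v = 0)
    (hW1 : ∀ u v, Γ.Adj u v → 1 ≤ |W u v|) (c : ℝ)
    (hc : ∀ (s : Finset V) (f : V → ℝ),
      |∑ u ∈ s, ∑ v ∈ s, W u v * f u * f v| ≤ c * ∑ u ∈ s, f u ^ 2)
    (N : ℕ) (hT : HasTri Γ N) (t : ℝ) (ht0 : 0 < t) (ht : t ^ 2 = 1 / 2) :
    3 * t * (1 - (1 / 2) ^ N) * 4 ≤ c * (4 - 3 * (1 / 2) ^ N) := by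
  obtain ⟨a, o, h0, h1, h2⟩ := hT
  -- the parity of the distance to the centre
  let σ : V → ℝ := fun v => if Γ.dist o v % 2 = 0 then 1 else -1
  have hσ2 : ∀ v, σ v * σ v = 1 := by
    intro v; simp only [σ]; split_ifs <;> norm_num
  have hd : ∀ i k, k ≤ N → Γ.dist o (a i k) = k := by
    intro i k hk
    rw [← h0 i, h1 i 0 k (by omega) hk]
    omega
  have hσa : ∀ i k, k ≤ N → σ (a i k) = if k % 2 = 0 then 1 else -1 := by
    intro i k hk
    simp only [σ]
    rw [hd i k hk]
  let W' : V → V → ℝ := fun u v => W u v * ((1 - σ u * σ v) / 2)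
  have hc' : ∀ (s : Finset V) (f : V → ℝ),
      ∑ u ∈ s, ∑ v ∈ s, W' u v * f u * f v ≤ c * ∑ u ∈ s, f u ^ 2 := by
    intro s f
    have e1 := hc s f
    have e2 := hc s (fun v => σ v * f v)
    have e3 : ∑ u ∈ s, (σ u * f u) ^ 2 = ∑ u ∈ s, f u ^ 2 := by
      refine Finset.sum_congr rfl fun u _ => ?_
      rw [mul_pow, sq (σ u), hσ2, one_mul]
    rw [e3] at e2
    have e4 : ∑ u ∈ s, ∑ v ∈ s, W' u v * f u * f v
        = ((∑ u ∈ s, ∑ v ∈ s, W u v * f u * f v)
          - ∑ u ∈ s, ∑ v ∈ s, W u v * (σ u * f u) * (σ v * f v)) / 2 := by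
      rw [← Finset.sum_sub_distrib, Finset.sum_div]
      refine Finset.sum_congr rfl fun u _ => ?_
      rw [← Finset.sum_sub_distrib, Finset.sum_div]
      refine Finset.sum_congr rfl fun v _ => ?_
      simp only [W']
      ring
    rw [e4]
    have := abs_le.1 e1
    have := abs_le.1 e2
    linarith
  have hW'0 : ∀ i j k l, k ≤ N → l ≤ N → k % 2 = l % 2 → W' (a i k) (a j l) = 0 := by
    intro i j k l hk hl hkl
    simp only [W']
    rw [hσa i k hk, hσa j l hl, hkl]
    split_ifs <;> norm_num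
  refine tripod_bound W' ?_ c hc' N a o h0 ?_ ?_ ?_ ?_ t ht0 ht
  · intro u v
    simp only [W']
    rw [hsymm u v, mul_comm (σ u)]
  · intro i j k l hk hl h
    by_cases hij : i = j
    · subst hij
      right
      refine ⟨rfl, ?_⟩
      have := h1 i k l hk hl
      rw [h, SimpleGraph.dist_self] at this
      omega
    · have e1 := hd i k hk
      rw [h, hd j l hl] at e1
      subst e1
      rcases Nat.eq_zero_or_pos l with hl0 | hl0
      · exact Or.inl ⟨hl0, hl0⟩
      · exfalso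
        rcases h2 i j l l hij hl0 hl hl0 hl with h3 | ⟨_, _, h3⟩
        · rw [h, SimpleGraph.dist_self] at h3; omega
        · exact h3 h
  · intro i k l hk hl h3 h4
    by_cases hkl : k = l
    · subst hkl
      exact hW'0 i i k k hk hk rfl
    · have e1 : W (a i k) (a i l) = 0 := by
        apply hWΓ
        · intro h
          have := h1 i k l hk hl
          rw [h, SimpleGraph.dist_self] at this
          omega
        · intro h
          have := SimpleGraph.dist_eq_one_iff_adj.2 h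
          rw [h1 i k l hk hl] at this
          omega
      simp only [W']
      rw [e1, zero_mul]
  · intro i j k l hij hk0 hk hl0 hl
    rcases h2 i j k l hij hk0 hk hl0 hl with h3 | ⟨h3, h4, _⟩
    · have e1 : W (a i k) (a j l) = 0 := by
        apply hWΓ
        · intro h
          rw [h, SimpleGraph.dist_self] at h3
          omega
        · intro h
          have := SimpleGraph.dist_eq_one_iff_adj.2 h
          omega
      simp only [W']
      rw [e1, zero_mul]
    · exact hW'0 i j k l hk hl (by rw [h3, h4])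
  · intro i k hk
    have hadj : Γ.Adj (a i k) (a i (k + 1)) := by
      rw [← SimpleGraph.dist_eq_one_iff_adj, h1 i k (k + 1) (by omega) (by omega)]
      omega
    have e1 := hW1 _ _ hadj
    have e2 : W' (a i k) (a i (k + 1)) = W (a i k) (a i (k + 1)) := by
      simp only [W']
      rw [hσa i k (by omega), hσa i (k + 1) (by omega)]
      have : k % 2 = 0 ∨ k % 2 = 1 := by omega
      rcases this with h | h
      · rw [if_pos h, if_neg (by omega)]; ring
      · rw [if_neg (by omega), if_pos (by omega)]; ring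
    rw [e2]
    exact e1

end Pool.Agent.H52.SW
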