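import Pool.Agent.H52.SW.Geo

set_option autoImplicit false
set_option linter.style.haveILetI false

/-! A torsion-free group acting freely and with finitely many orbits on a connected
graph of bounded degree without long tripods is cyclic (the graph need not be bipartite). -/

namespace Pool.Agent.H52.SW

open SimpleGraph TH57.Thr

variable {V : Type*}

theorem small_ball2 {Γ : SimpleGraph V} (hΓ : Γ.Connected) (Δ : ℕ)
    (hΔ : ∀ v, (Γ.neighborSet v).Finite ∧ (Γ.neighborSet v).ncard ≤ Δ) [Infinite V]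
    (N : ℕ) (hN : ¬ HasTri Γ N) (ρ : ℕ) :
    ∃ z, (bl Γ z ρ).ncard ≤ (4 * ρ + 1) * (Δ + 1) ^ N := by
  classical
  obtain ⟨v⟩ : Nonempty V := inferInstance
  set R := 2 * ρ + N + 2 with hR
  obtain ⟨w, hw⟩ := exists_dist_eq hΓ Δ hΔ v (2 * R)
  obtain ⟨γ, h0, h1, hγ⟩ := exists_geod hΓ v w
  rw [hw] at h1 hγ
  refine ⟨γ R, ?_⟩
  set C : Finset V := (Finset.Icc (R - 2 * ρ) (R + 2 * ρ)).biUnion
    (fun i => (bl_card hΓ Δ hΔ (γ i) N).1.toFinset) with hC
  have hsub : bl Γ (γ R) ρ ⊆ (C : Set V) := by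
    intro u hu
    simp only [bl, Set.mem_ofPred_eq] at hu
    obtain ⟨i₀, hi₀, hmin⟩ := Finset.exists_min_image (Finset.range (2 * R + 1))
      (fun i => Γ.dist (γ i) u) ⟨0, Finset.mem_range.2 (by omega)⟩
    rw [Finset.mem_range] at hi₀
    have hmin' : ∀ l, l ≤ 2 * R → Γ.dist (γ i₀) u ≤ Γ.dist (γ l) u := fun l hl =>
      hmin l (Finset.mem_range.2 (by omega))
    have h2 := hmin' R (by omega)
    have h3 := hΓ.dist_triangle (u := γ i₀) (v := u) (w := γ R)
    rw [hγ i₀ R (by omega) (by omega), SimpleGraph.dist_comm (u := u)] at h3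
    have h4 : Γ.dist (γ i₀) u ≤ N := by
      by_contra hcon
      exact hN (tri_of_far hΓ γ (2 * R) N hγ u i₀ (by omega) (by omega) hmin'
        (by omega))
    rw [Finset.mem_coe, hC, Finset.mem_biUnion]
    refine ⟨i₀, Finset.mem_Icc.2 ⟨by omega, by omega⟩, ?_⟩
    rw [Set.Finite.mem_toFinset]
    exact h4
  calc (bl Γ (γ R) ρ).ncard ≤ (C : Set V).ncard := Set.ncard_le_ncard hsub C.finite_toSet
    _ = C.card := Set.ncard_coe_finset C
    _ ≤ (Finset.Icc (R - 2 * ρ) (R + 2 * ρ)).card * (Δ + 1) ^ N := by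
        apply Finset.card_biUnion_le_card_mul
        intro i _
        rw [← Set.ncard_eq_toFinset_card _ (bl_card hΓ Δ hΔ (γ i) N).1]
        exact (bl_card hΓ Δ hΔ (γ i) N).2
    _ = (4 * ρ + 1) * (Δ + 1) ^ N := by
        rw [Nat.card_Icc]
        congr 1
        omega

section action

variable {S : Type*} [Group S] [MulAction S V]

theorem zpowers_finiteIndex2 {Γ : SimpleGraph V} (hΓ : Γ.Connected) (Δ : ℕ)
    (hΔ : ∀ v, (Γ.neighborSet v).Finite ∧ (Γ.neighborSet v).ncard ≤ Δ)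
    (N : ℕ) (hN : ¬ HasTri Γ N)
    (hadj : ∀ (g : S) u v, Γ.Adj u v → Γ.Adj (g • u) (g • v))
    (hfree : ∀ (g : S) (v : V), g • v = v → g = 1)
    (R : Finset V) (hR : ∀ v : V, ∃ g : S, ∃ r ∈ R, g • r = v)
    (htf : ∀ g : S, ∀ n : ℕ, 0 < n → g ^ n = 1 → g = 1) (s : S) (hs : s ≠ 1) :
    (Subgroup.zpowers s).FiniteIndex := by
  classical
  have htfz : ∀ n : ℤ, s ^ n = 1 → n = 0 := by
    intro n hn
    by_contra hn0
    apply hs
    apply htf s n.natAbs (Int.natAbs_pos.2 hn0)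
    rcases Int.natAbs_eq n with h1 | h1
    · rw [h1, zpow_natCast] at hn
      exact hn
    · rw [h1, zpow_neg, zpow_natCast, inv_eq_one] at hn
      exact hn
  obtain ⟨v⟩ : Nonempty V := hΓ.nonempty
  haveI : Infinite V := by
    refine Infinite.of_injective (fun n : ℤ => s ^ n • v) ?_
    intro n m h
    have h1 : (s ^ m)⁻¹ • s ^ n • v = v := by
      simp only at h
      rw [h, inv_smul_smul]
    rw [← mul_smul] at h1
    have h2 := hfree _ _ h1
    rw [← zpow_neg, ← zpow_add] at h2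
    have := htfz _ h2
    omega
  have hds := dist_smul (S := S) hΓ hadj
  obtain ⟨D₀, hD₀⟩ : ∃ D₀ : ℕ, ∀ z : V, ∃ g : S, Γ.dist (g • v) z ≤ D₀ := by
    refine ⟨R.sup (fun r => Γ.dist v r), fun z => ?_⟩
    obtain ⟨g, r, hr, rfl⟩ := hR z
    refine ⟨g, ?_⟩
    rw [hds]
    exact Finset.le_sup (f := fun r => Γ.dist v r) hr
  set M := (Δ + 1) ^ N with hM
  have hM1 : 1 ≤ M := Nat.one_le_pow _ _ (by omega)
  have hupper : ∀ ρ, (bl Γ v ρ).ncard ≤ (4 * (ρ + D₀) + 1) * M := by
    intro ρ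
    obtain ⟨z, hz⟩ := small_ball2 hΓ Δ hΔ N hN (ρ + D₀)
    obtain ⟨g, hg⟩ := hD₀ z
    refine le_trans ?_ hz
    have h1 : (bl Γ v ρ).ncard = ((fun x => g • x) '' bl Γ v ρ).ncard :=
      (Set.ncard_image_of_injective _ (MulAction.injective g)).symm
    rw [h1]
    apply Set.ncard_le_ncard _ (bl_card hΓ Δ hΔ z (ρ + D₀)).1
    rintro _ ⟨x, hx, rfl⟩
    simp only [bl, Set.mem_ofPred_eq] at hx ⊢
    have := hΓ.dist_triangle (u := z) (v := g • v) (w := g • x)
    rw [hds, SimpleGraph.dist_comm (u := z) (v := g • v)] at this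
    omega
  set D := Γ.dist v (s • v) with hD
  have hsn : ∀ n : ℕ, Γ.dist v (s ^ n • v) ≤ n * D := by
    intro n
    induction n with
    | zero => simp
    | succ n ih =>
      have := hΓ.dist_triangle (u := v) (v := s ^ n • v) (w := s ^ (n + 1) • v)
      rw [pow_succ, mul_smul, hds] at this
      rw [pow_succ, mul_smul, Nat.succ_mul]
      omega
  -- all vertices are close to the orbit
  obtain ⟨r₀, hr₀⟩ : ∃ r₀ : ℕ, ∀ w : V, ∃ n : ℤ, Γ.dist (s ^ n • v) w ≤ r₀ := by
    by_contra hcon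
    push Not at hcon
    set r := (4 * (D + 1) + 4 * D₀ + 1) * M with hr
    obtain ⟨w, hw⟩ := hcon r
    -- the nearest orbit point
    obtain ⟨n₀, hn₀⟩ : ∃ n₀ : ℤ, ∀ n : ℤ, Γ.dist (s ^ n₀ • v) w ≤ Γ.dist (s ^ n • v) w := by
      have hne : {d : ℕ | ∃ n : ℤ, Γ.dist (s ^ n • v) w = d}.Nonempty := ⟨_, 0, rfl⟩
      obtain ⟨n₀, h1⟩ := Nat.sInf_mem hne
      refine ⟨n₀, fun n => ?_⟩
      rw [h1]
      exact Nat.sInf_le ⟨n, rfl⟩
    set w' := (s ^ n₀)⁻¹ • w with hw'
    have hw'1 : ∀ n : ℤ, Γ.dist v w' ≤ Γ.dist (s ^ n • v) w' := by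
      intro n
      have e1 : Γ.dist v w' = Γ.dist (s ^ n₀ • v) w := by
        rw [← hds (s ^ n₀) v w', hw', smul_inv_smul]
      have e2 : Γ.dist (s ^ n • v) w' = Γ.dist (s ^ (n₀ + n) • v) w := by
        rw [← hds (s ^ n₀) (s ^ n • v) w', hw', smul_inv_smul, ← mul_smul, ← zpow_add]
      rw [e1, e2]
      exact hn₀ _
    have hw'2 : r < Γ.dist v w' := by
      have e1 : Γ.dist v w' = Γ.dist (s ^ n₀ • v) w := by
        rw [← hds (s ^ n₀) v w', hw', smul_inv_smul]
      rw [e1]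
      exact hw n₀
    obtain ⟨p, hp0, hpk, hp⟩ := exists_geod hΓ v w'
    have hpd : ∀ k, k ≤ r → ∀ n : ℤ, k ≤ Γ.dist (s ^ n • v) (p k) := by
      intro k hk n
      have h1 := hw'1 n
      have h2 := hΓ.dist_triangle (u := s ^ n • v) (v := p k) (w := w')
      have h3 := hp k (Γ.dist v w') (by omega) le_rfl
      rw [hpk] at h3
      omega
    have hpe : ∀ k, k ≤ r → Γ.dist v (p k) = k := by
      intro k hk
      rw [← hp0, hp 0 k (by omega) (by omega)]
      omega
    let F : Fin (r + 1) × Fin (r + 1) → V := fun x => s ^ (x.1 : ℕ) • p x.2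
    have hFinj : Function.Injective F := by
      rintro ⟨n, k⟩ ⟨m, l⟩ h
      simp only [F] at h
      have hk := k.2
      have hl := l.2
      have hkl : ∀ (n m : ℕ) (k l : ℕ), k ≤ r → l ≤ r → s ^ n • p k = s ^ m • p l → l ≤ k := by
        intro n m k l hk hl h
        have e1 : Γ.dist (s ^ n • v) (s ^ n • p k) = k := by rw [hds, hpe k hk]
        rw [h] at e1
        have e2 : Γ.dist (s ^ ((n : ℤ) - m) • v) (p l) = k := by
          rw [← e1, ← hds (s ^ m) (s ^ ((n : ℤ) - m) • v) (p l), ← mul_smul, ← zpow_natCast s m,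
            ← zpow_add, ← zpow_natCast s n]
          congr 3
          ring
        rw [← e2]
        exact hpd l hl _
      have h1 : (k : ℕ) = l := le_antisymm (hkl m n l k (by omega) (by omega) h.symm)
        (hkl n m k l (by omega) (by omega) h)
      have h2 : k = l := Fin.ext h1
      subst h2
      have h3 : (s ^ (m : ℕ))⁻¹ • s ^ (n : ℕ) • p k = p k := by rw [h, inv_smul_smul]
      rw [← mul_smul] at h3
      have h4 := hfree _ _ h3
      rw [← zpow_natCast, ← zpow_natCast, ← zpow_neg, ← zpow_add] at h4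
      have h5 := htfz _ h4
      have h6 : n = m := Fin.ext (by omega)
      rw [h6]
    have hFr : Set.range F ⊆ bl Γ v (r * D + r) := by
      rintro _ ⟨⟨n, k⟩, rfl⟩
      simp only [F, bl, Set.mem_ofPred_eq]
      have h1 := hΓ.dist_triangle (u := v) (v := s ^ (n : ℕ) • v) (w := s ^ (n : ℕ) • p k)
      rw [hds, hpe k (by have := k.2; omega)] at h1
      have h2 := hsn n
      have h3 : (n : ℕ) * D ≤ r * D := Nat.mul_le_mul_right _ (by have := n.2; omega)
      have h4 := k.2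
      omega
    have hc1 : (r + 1) * (r + 1) ≤ (bl Γ v (r * D + r)).ncard := by
      have h1 : (Set.range F).ncard = (r + 1) * (r + 1) := by
        rw [← Set.image_univ, Set.ncard_image_of_injective _ hFinj, Set.ncard_univ]
        simp
      rw [← h1]
      exact Set.ncard_le_ncard hFr (bl_card hΓ Δ hΔ v _).1
    have hc2 := hupper (r * D + r)
    have hr1 : 1 ≤ r := by
      rw [hr]
      exact Nat.one_le_iff_ne_zero.2 (by positivity)
    have hc3 : (4 * (r * D + r + D₀) + 1) * M ≤ r * r := by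
      calc (4 * (r * D + r + D₀) + 1) * M ≤ (r * (4 * (D + 1) + 4 * D₀ + 1)) * M := by
            apply Nat.mul_le_mul_right
            nlinarith
        _ = r * r := by rw [mul_assoc, ← hr]
    nlinarith
  -- finite index
  have hF : {h : S | h • v ∈ bl Γ v r₀}.Finite := by
    apply Set.Finite.of_finite_image (f := fun h : S => h • v)
    · exact (bl_card hΓ Δ hΔ v r₀).1.subset (by rintro _ ⟨h, hh, rfl⟩; exact hh)
    · intro a _ b _ hab
      have h1 : b⁻¹ • a • v = v := by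
        simp only at hab
        rw [hab, inv_smul_smul]
      rw [← mul_smul] at h1
      have := hfree _ _ h1
      rw [inv_mul_eq_one] at this
      exact this.symm
  have hfq : Finite (S ⧸ Subgroup.zpowers s) := by
    haveI : Finite {h : S | h • v ∈ bl Γ v r₀} := hF
    refine Finite.of_surjective (α := {h : S | h • v ∈ bl Γ v r₀})
      (fun h => ((h.1⁻¹ : S) : S ⧸ Subgroup.zpowers s)) ?_
    intro q
    induction q using QuotientGroup.induction_on with
    | H g =>
      obtain ⟨n, hn⟩ := hr₀ (g⁻¹ • v)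
      refine ⟨⟨(s ^ n)⁻¹ * g⁻¹, ?_⟩, ?_⟩
      · simp only [bl, Set.mem_ofPred_eq]
        rw [← hds (s ^ n) v, mul_smul, smul_inv_smul]
        exact hn
      · simp only
        rw [QuotientGroup.eq]
        rw [Subgroup.mem_zpowers_iff]
        exact ⟨-n, by group⟩
  exact Subgroup.finiteIndex_of_finite_quotient

theorem isCyclic_of_noTri {Γ : SimpleGraph V} (hΓ : Γ.Connected) (Δ : ℕ)
    (hΔ : ∀ v, (Γ.neighborSet v).Finite ∧ (Γ.neighborSet v).ncard ≤ Δ)
    (N : ℕ) (hN : ¬ HasTri Γ N)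
    (hadj : ∀ (g : S) u v, Γ.Adj u v → Γ.Adj (g • u) (g • v))
    (hfree : ∀ (g : S) (v : V), g • v = v → g = 1)
    (R : Finset V) (hR : ∀ v : V, ∃ g : S, ∃ r ∈ R, g • r = v)
    (htf : ∀ g : S, ∀ n : ℕ, 0 < n → g ^ n = 1 → g = 1) : IsCyclic S :=
  isCyclic_of_zpowers_finiteIndex htf fun s hs =>
    zpowers_finiteIndex2 hΓ Δ hΔ N hN hadj hfree R hR htf s hs

end action

end Pool.Agent.H52.SW
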