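import Pool.Agent.H52.SW.Growth
import Pool.Graph.R_seed8.TH57.Thr.Asm
import Pool.Graph.R_seed8.TH6.LF.Bar

set_option autoImplicit false
set_option linter.style.haveILetI false
set_option linter.unusedSectionVars false

/-! Self-adjoint matrices over the integral group ring of a torsion-free group whose distance to
the real diagonal matrices is less than `3 / √2` come from cyclic subgroups. -/

namespace Pool.Agent.H52.SW

open Matrix SimpleGraph TH57.Thr TH6.LF

variable {G : Type} [Group G] {ι : Type} [Fintype ι] [DecidableEq ι]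

/-- `|⟨x A, x⟩ - ∑ d i ‖x i‖²| ≤ c ‖x‖²` for all finitely supported `x` -/
def NearDiag (A : Matrix ι ι (MonoidAlgebra ℤ G)) (d : ι → ℝ) (c : ℝ) : Prop :=
  ∀ x : ι → MonoidAlgebra ℝ G, |ip (x ᵥ* toReal A) x - ∑ i, d i * n1 (x i)| ≤ c * normSq x

theorem ip_eq (y x : ι → MonoidAlgebra ℝ G) (T : Finset G)
    (h : ∀ i, (x i).coeff.support ⊆ T) :
    ip y x = ∑ i, ∑ g ∈ T, (y i).coeff g * (x i).coeff g := by
  rw [ip_comm]
  unfold ip
  rw [MonoidAlgebra.coeff_sum, Finsupp.finsetSum_apply]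
  refine Finset.sum_congr rfl fun i _ => ?_
  rw [MonoidAlgebra.coeff_mul_apply_left, Finsupp.sum]
  have h1 : ∀ g, (x i).coeff g * (bar (y i)).coeff (g⁻¹ * 1) = (y i).coeff g * (x i).coeff g := by
    intro g; rw [coeff_bar]; simp [mul_comm]
  simp only [h1]
  refine Finset.sum_subset (h i) fun g _ hg => ?_
  rw [Finsupp.notMem_support_iff.1 hg, mul_zero]

open Classical in
/-- the entries of the infinite matrix, minus the diagonal `d` -/
noncomputable def ww (A : Matrix ι ι (MonoidAlgebra ℤ G)) (d : ι → ℝ) (u v : G × ι) : ℝ :=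
  (((A u.2 v.2).coeff (u.1⁻¹ * v.1) : ℤ) : ℝ) - if u = v then d u.2 else 0

theorem coeff_symm {A : Matrix ι ι (MonoidAlgebra ℤ G)} (hA : adj A = A) (i j : ι) (g : G) :
    (A i j).coeff g = (A j i).coeff g⁻¹ := by
  conv_lhs => rw [← hA]
  rw [adj_apply, coeff_bar]

theorem ww_symm {A : Matrix ι ι (MonoidAlgebra ℤ G)} (hA : adj A = A) (d : ι → ℝ)
    (u v : G × ι) : ww A d u v = ww A d v u := by
  unfold ww
  rw [coeff_symm hA u.2 v.2]
  have h1 : (u.1⁻¹ * v.1)⁻¹ = v.1⁻¹ * u.1 := by group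
  rw [h1]
  by_cases h : u = v
  · subst h; rfl
  · rw [if_neg h, if_neg (Ne.symm h)]

/-- the graph of a self-adjoint matrix -/
def gs (A : Matrix ι ι (MonoidAlgebra ℤ G)) (hA : adj A = A) : SimpleGraph (G × ι) where
  Adj u v := u ≠ v ∧ (A u.2 v.2).coeff (u.1⁻¹ * v.1) ≠ 0
  symm := ⟨fun u v h => by
    refine ⟨h.1.symm, ?_⟩
    rw [coeff_symm hA]
    have h1 : (v.1⁻¹ * u.1)⁻¹ = u.1⁻¹ * v.1 := by group
    rw [h1]; exact h.2⟩
  loopless := ⟨fun u h => h.1 rfl⟩

theorem gs_adj {A : Matrix ι ι (MonoidAlgebra ℤ G)} (hA : adj A = A) (u v : G × ι) :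
    (gs A hA).Adj u v ↔ u ≠ v ∧ (A u.2 v.2).coeff (u.1⁻¹ * v.1) ≠ 0 := Iff.rfl

theorem one_le_abs_ww {A : Matrix ι ι (MonoidAlgebra ℤ G)} (hA : adj A = A) (d : ι → ℝ)
    (u v : G × ι) (h : (gs A hA).Adj u v) : 1 ≤ |ww A d u v| := by
  unfold ww
  rw [if_neg h.1, sub_zero]
  have h1 : 1 ≤ |(A u.2 v.2).coeff (u.1⁻¹ * v.1)| := Int.one_le_abs h.2
  exact_mod_cast h1

theorem ww_zero {A : Matrix ι ι (MonoidAlgebra ℤ G)} (hA : adj A = A) (d : ι → ℝ)
    (u v : G × ι) (huv : u ≠ v) (h : ¬ (gs A hA).Adj u v) : ww A d u v = 0 := by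
  unfold ww
  rw [if_neg huv, sub_zero]
  have h1 : (A u.2 v.2).coeff (u.1⁻¹ * v.1) = 0 := by
    by_contra h2
    exact h ⟨huv, h2⟩
  rw [h1, Int.cast_zero]

/-- The bound of the quadratic form. -/
theorem quad_bound' {A : Matrix ι ι (MonoidAlgebra ℤ G)} (d : ι → ℝ) (c : ℝ)
    (hN : NearDiag A d c) (s : Finset (G × ι)) (f : G × ι → ℝ) :
    |∑ u ∈ s, ∑ v ∈ s, ww A d u v * f u * f v| ≤ c * ∑ u ∈ s, f u ^ 2 := by
  classical
  let x : ι → MonoidAlgebra ℝ G := fun i =>
    ∑ p ∈ s, if p.2 = i then MonoidAlgebra.single p.1 (f p) else 0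
  have hxc : ∀ i g, (x i).coeff g = if (g, i) ∈ s then f (g, i) else 0 := by
    intro i g
    simp only [x]
    rw [MonoidAlgebra.coeff_sum, Finsupp.finsetSum_apply]
    split_ifs with h
    · rw [Finset.sum_eq_single (g, i)]
      · simp
      · rintro ⟨g', i'⟩ _ hne
        by_cases h1 : i' = i
        · subst h1
          have : g' ≠ g := fun h2 => hne (by rw [h2])
          simp [this]
        · simp [h1]
      · intro h1; exact absurd h h1
    · apply Finset.sum_eq_zero
      rintro ⟨g', i'⟩ hmem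
      by_cases h1 : i' = i
      · subst h1
        have : g' ≠ g := fun h2 => h (by rw [← h2]; exact hmem)
        simp [this]
      · simp [h1]
  set T : Finset G := s.image Prod.fst with hT
  have hsupp : ∀ i, (x i).coeff.support ⊆ T := by
    intro i g hg
    rw [Finsupp.mem_support_iff, hxc] at hg
    rw [hT, Finset.mem_image]
    by_contra hcon
    apply hg
    rw [if_neg]
    intro h2
    exact hcon ⟨_, h2, rfl⟩
  have hsumT : ∀ F : G × ι → ℝ, ∑ i, ∑ g ∈ T, (if (g, i) ∈ s then F (g, i) else 0)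
      = ∑ p ∈ s, F p := by
    intro F
    rw [Finset.sum_comm, ← Finset.sum_product', ← Finset.sum_filter]
    apply Finset.sum_congr _ fun _ _ => rfl
    ext ⟨g, i⟩
    simp only [hT, Finset.mem_filter, Finset.mem_product, Finset.mem_image, Finset.mem_univ,
      and_true]
    constructor
    · exact fun h => h.2
    · exact fun h => ⟨⟨_, h, rfl⟩, h⟩
  have hn1 : ∀ i, n1 (x i) = ∑ g ∈ T, (if (g, i) ∈ s then f (g, i) ^ 2 else 0) := by
    intro i
    rw [n1_eq _ T (hsupp i)]
    refine Finset.sum_congr rfl fun g _ => ?_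
    rw [hxc]
    split_ifs <;> simp
  have hnx : normSq x = ∑ p ∈ s, f p ^ 2 := by
    rw [normSq_eq]
    simp only [hn1]
    exact hsumT (fun p => f p ^ 2)
  have hdx : ∑ i, d i * n1 (x i) = ∑ p ∈ s, d p.2 * f p ^ 2 := by
    rw [← hsumT (fun p => d p.2 * f p ^ 2)]
    refine Finset.sum_congr rfl fun i _ => ?_
    rw [hn1, Finset.mul_sum]
    refine Finset.sum_congr rfl fun g _ => ?_
    split_ifs <;> simp
  have hz : ∀ q : G × ι, ((x ᵥ* toReal A) q.2).coeff q.1
      = ∑ p ∈ s, (((A p.2 q.2).coeff (p.1⁻¹ * q.1) : ℤ) : ℝ) * f p := by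
    rintro ⟨k, j⟩
    simp only [Matrix.vecMul, dotProduct]
    rw [MonoidAlgebra.coeff_sum, Finsupp.finsetSum_apply]
    have h1 : ∀ i, (x i * toReal A i j).coeff k
        = ∑ p ∈ s, if p.2 = i then (((A p.2 j).coeff (p.1⁻¹ * k) : ℤ) : ℝ) * f p else 0 := by
      intro i
      simp only [x]
      rw [Finset.sum_mul, MonoidAlgebra.coeff_sum, Finsupp.finsetSum_apply]
      refine Finset.sum_congr rfl fun p _ => ?_
      split_ifs with h
      · subst h
        rw [MonoidAlgebra.coeff_single_mul_apply]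
        simp only [toReal, Matrix.map_apply, MonoidAlgebra.coeff_mapRingHom]
        rw [mul_comm]
        rfl
      · simp
    simp only [h1]
    rw [Finset.sum_comm]
    refine Finset.sum_congr rfl fun p _ => ?_
    simp
  have hip : ip (x ᵥ* toReal A) x
      = ∑ q ∈ s, (∑ p ∈ s, (((A p.2 q.2).coeff (p.1⁻¹ * q.1) : ℤ) : ℝ) * f p) * f q := by
    rw [ip_eq _ _ T hsupp, ← hsumT]
    refine Finset.sum_congr rfl fun i _ => Finset.sum_congr rfl fun g _ => ?_
    rw [hxc, hz (g, i)]
    split_ifs <;> simp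
  have hsum : ∑ u ∈ s, ∑ v ∈ s, ww A d u v * f u * f v
      = ip (x ᵥ* toReal A) x - ∑ i, d i * n1 (x i) := by
    rw [hip, hdx, Finset.sum_comm, ← Finset.sum_sub_distrib]
    refine Finset.sum_congr rfl fun q hq => ?_
    have h1 : d q.2 * f q ^ 2 = ∑ p ∈ s, (if p = q then d p.2 else 0) * f p * f q := by
      rw [Finset.sum_eq_single q]
      · simp [sq, mul_assoc]
      · intro p _ hp
        simp [hp]
      · intro h; exact absurd hq h
    rw [h1, Finset.sum_mul, ← Finset.sum_sub_distrib]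
    refine Finset.sum_congr rfl fun p _ => ?_
    unfold ww
    ring
  rw [hsum, ← hnx]
  exact hN x

/-- left multiplication on the vertices -/
def mw (g : G) (v : G × ι) : G × ι := (g * v.1, v.2)

theorem mw_mul (g h : G) (v : G × ι) : mw (g * h) v = mw g (mw h v) := by
  simp [mw, mul_assoc]

theorem mw_one (v : G × ι) : mw (1 : G) v = v := by simp [mw]

theorem adj_mw {A : Matrix ι ι (MonoidAlgebra ℤ G)} (hA : adj A = A) (g : G) (u v : G × ι)
    (h : (gs A hA).Adj u v) : (gs A hA).Adj (mw g u) (mw g v) := by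
  rw [gs_adj] at h ⊢
  refine ⟨fun e => h.1 ?_, ?_⟩
  · have := congrArg (mw g⁻¹) e
    rwa [← mw_mul, ← mw_mul, inv_mul_cancel, mw_one, mw_one] at this
  · have : (mw g u).1⁻¹ * (mw g v).1 = u.1⁻¹ * v.1 := by simp [mw, mul_assoc]
    rw [this]
    exact h.2

theorem reachable_mw {A : Matrix ι ι (MonoidAlgebra ℤ G)} (hA : adj A = A) (g : G) {u v : G × ι}
    (h : (gs A hA).Reachable u v) : (gs A hA).Reachable (mw g u) (mw g v) := by
  let f : gs A hA →g gs A hA := ⟨mw g, fun h => adj_mw hA g _ _ h⟩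
  exact h.map f

theorem mw_free (g : G) (v : G × ι) (h : mw g v = v) : g = 1 := by
  have := congrArg Prod.fst h
  simpa [mw] using this

theorem mw_base (v : G × ι) : mw v.1 (1, v.2) = v := by simp [mw]

/-- the stabiliser of the component of a vertex -/
def stb (A : Matrix ι ι (MonoidAlgebra ℤ G)) (hA : adj A = A) (b : G × ι) : Subgroup G where
  carrier := {g | (gs A hA).Reachable b (mw g b)}
  mul_mem' := by
    intro g h hg hh
    change (gs A hA).Reachable b (mw (g * h) b)
    rw [mw_mul]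
    exact SimpleGraph.Reachable.trans hg (reachable_mw hA g hh)
  one_mem' := by
    change (gs A hA).Reachable b (mw 1 b)
    rw [mw_one]
  inv_mem' := by
    intro g hg
    change (gs A hA).Reachable b (mw g⁻¹ b)
    have := reachable_mw hA g⁻¹ hg
    rw [← mw_mul, inv_mul_cancel, mw_one] at this
    exact this.symm

theorem mem_stb {A : Matrix ι ι (MonoidAlgebra ℤ G)} (hA : adj A = A) (b : G × ι) (g : G) :
    g ∈ stb A hA b ↔ (gs A hA).Reachable b (mw g b) := Iff.rfl

section comp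

variable (A : Matrix ι ι (MonoidAlgebra ℤ G)) (hA : adj A = A) (b : G × ι)

/-- the component -/
abbrev cq := (gs A hA).connectedComponentMk b

theorem mem_cq (v : G × ι) : v ∈ cq A hA b ↔ (gs A hA).Reachable b v := by
  change (gs A hA).connectedComponentMk v = (gs A hA).connectedComponentMk b ↔ _
  rw [SimpleGraph.ConnectedComponent.eq]
  exact ⟨fun h => h.symm, fun h => h.symm⟩

/-- the action of the stabiliser on the component -/
@[implicit_reducible] noncomputable def act' : MulAction (stb A hA b) (cq A hA b) where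
  smul g v := ⟨mw g.1 v.1, by
    rw [mem_cq]
    have h1 : (gs A hA).Reachable b v.1 := (mem_cq A hA b _).1 v.2
    exact SimpleGraph.Reachable.trans g.2 (reachable_mw hA g.1 h1)⟩
  one_smul v := Subtype.ext (mw_one v.1)
  mul_smul g h v := Subtype.ext (mw_mul g.1 h.1 v.1)

end comp

/-- degree bound -/
noncomputable def dg' (A : Matrix ι ι (MonoidAlgebra ℤ G)) : ℕ :=
  ∑ i, ∑ j, (A i j).coeff.support.card

theorem nbr_row' (A : Matrix ι ι (MonoidAlgebra ℤ G)) (hA : adj A = A) (v : G × ι) :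
    ∃ T : Finset (G × ι), (gs A hA).neighborSet v ⊆ T ∧ T.card ≤ dg' A := by
  classical
  obtain ⟨g, i⟩ := v
  refine ⟨Finset.univ.biUnion (fun j => (A i j).coeff.support.image
    (fun h => (g * h, j))), ?_, ?_⟩
  · rintro ⟨k, j⟩ hv
    rw [Finset.mem_coe, Finset.mem_biUnion]
    refine ⟨j, Finset.mem_univ _, ?_⟩
    rw [Finset.mem_image]
    refine ⟨g⁻¹ * k, ?_, by simp⟩
    rw [Finsupp.mem_support_iff]
    exact hv.2
  · refine Finset.card_biUnion_le.trans ?_
    refine (Finset.sum_le_sum fun j _ => Finset.card_image_le).trans ?_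
    unfold dg'
    exact Finset.single_le_sum (f := fun i => ∑ j, (A i j).coeff.support.card)
      (fun _ _ => Nat.zero_le _) (Finset.mem_univ i)

/-- There are no long tripods. -/
theorem no_tri (A : Matrix ι ι (MonoidAlgebra ℤ G)) (hA : adj A = A) (d : ι → ℝ) (c : ℝ)
    (hc0 : 0 < c) (hc : c ^ 2 < 9 / 2) (hN : NearDiag A d c) (b : G × ι) :
    ∃ N, ¬ HasTri (cq A hA b).toSimpleGraph N := by
  classical
  set Γ := (cq A hA b).toSimpleGraph with hΓ
  have hadj : ∀ u v : cq A hA b, Γ.Adj u v ↔ (gs A hA).Adj u.1 v.1 := fun u v =>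
    SimpleGraph.ConnectedComponent.toSimpleGraph_adj _ u.2 v.2
  set t : ℝ := Real.sqrt (1 / 2) with ht
  have ht2 : t ^ 2 = 1 / 2 := Real.sq_sqrt (by norm_num)
  have ht0 : 0 < t := Real.sqrt_pos.2 (by norm_num)
  have h3t : c < 3 * t := by
    have : c ^ 2 < (3 * t) ^ 2 := by rw [mul_pow, ht2]; linarith
    exact lt_of_pow_lt_pow_left₀ 2 (by positivity) this
  obtain ⟨N, hN'⟩ := exists_pow_lt_of_lt_one (show 0 < (3 * t - c) / (3 * t) by
    apply div_pos (by linarith) (by positivity)) (show (1 / 2 : ℝ) < 1 by norm_num)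
  refine ⟨N, fun hT => ?_⟩
  have key := tri_norm (Γ := Γ) (fun u v => ww A d u.1 v.1) (fun u v => ww_symm hA d _ _)
    (fun u v huv h => ww_zero hA d _ _ (fun e => huv (Subtype.ext e)) fun h1 =>
      h ((hadj u v).2 h1))
    (fun u v h => one_le_abs_ww hA d _ _ ((hadj u v).1 h)) c
    (fun s f => by
      obtain ⟨F, hF⟩ : ∃ F : G × ι → ℝ, ∀ x : cq A hA b, F x.1 = f x :=
        ⟨fun v => if h : v ∈ cq A hA b then f ⟨v, h⟩ else 0, fun x => dif_pos x.2⟩
      have := quad_bound' d c hN (s.map (Function.Embedding.subtype _)) F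
      simp only [Finset.sum_map, Function.Embedding.subtype_apply, hF] at this
      exact this) N hT t ht0 ht2
  set y := (1 / 2 : ℝ) ^ N with hy
  have hy0 : 0 < y := by positivity
  have hy1 : y ≤ 1 := pow_le_one₀ (by norm_num) (by norm_num)
  rw [lt_div_iff₀ (by positivity)] at hN'
  nlinarith

/-- If there are no long tripods, the stabilisers of the components are cyclic. -/
theorem stb_cyclic (htf : ∀ g : G, ∀ n : ℕ, 0 < n → g ^ n = 1 → g = 1)
    (A : Matrix ι ι (MonoidAlgebra ℤ G)) (hA : adj A = A) (b : G × ι)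
    (hT : ∃ N, ¬ HasTri (cq A hA b).toSimpleGraph N) : IsCyclic (stb A hA b) := by
  classical
  letI := act' A hA b
  set Γ := (cq A hA b).toSimpleGraph with hΓ
  have hconn : Γ.Connected := (cq A hA b).connected_toSimpleGraph
  have hadj : ∀ u v : cq A hA b, Γ.Adj u v ↔ (gs A hA).Adj u.1 v.1 := fun u v =>
    SimpleGraph.ConnectedComponent.toSimpleGraph_adj _ u.2 v.2
  obtain ⟨N, hN⟩ := hT
  refine isCyclic_of_noTri (S := stb A hA b) hconn (dg' A) ?_ N hN
    ?_ ?_ (Finset.univ.biUnion (fun p : ι =>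
      if h : ∃ v : cq A hA b, v.1.2 = p then {Classical.choose h} else ∅)) ?_ ?_
  · intro v
    obtain ⟨T, hT1, hT2⟩ := nbr_row' A hA v.1
    have hsub : (Subtype.val '' Γ.neighborSet v) ⊆ (T : Set (G × ι)) := by
      rintro _ ⟨u, hu, rfl⟩
      exact hT1 ((hadj v u).1 hu)
    have hfin : (Subtype.val '' Γ.neighborSet v).Finite := T.finite_toSet.subset hsub
    refine ⟨hfin.of_finite_image Subtype.val_injective.injOn, ?_⟩
    rw [← Set.ncard_image_of_injective _ Subtype.val_injective]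
    exact (Set.ncard_le_ncard hsub T.finite_toSet).trans (by rw [Set.ncard_coe_finset]; exact hT2)
  · intro g u v h
    rw [hadj] at h ⊢
    exact adj_mw hA g.1 _ _ h
  · intro g v h
    exact Subtype.ext (mw_free g.1 v.1 (congrArg Subtype.val h))
  · intro v
    have hex : ∃ w : cq A hA b, w.1.2 = v.1.2 := ⟨v, rfl⟩
    set w := Classical.choose hex with hw
    have hwix : w.1.2 = v.1.2 := Classical.choose_spec hex
    have h1 : mw (v.1.1 * w.1.1⁻¹) w.1 = v.1 := by
      refine Prod.ext ?_ hwix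
      simp [mw]
    have h2 : v.1.1 * w.1.1⁻¹ ∈ stb A hA b := by
      rw [mem_stb]
      have hb1 : (gs A hA).Reachable b v.1 := (mem_cq A hA b _).1 v.2
      have hb2 : (gs A hA).Reachable b w.1 := (mem_cq A hA b _).1 w.2
      have h3 := reachable_mw hA (v.1.1 * w.1.1⁻¹) hb2
      rw [h1] at h3
      exact hb1.trans h3.symm
    refine ⟨⟨_, h2⟩, w, ?_, Subtype.ext h1⟩
    rw [Finset.mem_biUnion]
    refine ⟨v.1.2, Finset.mem_univ _, ?_⟩
    rw [dif_pos hex]
    exact Finset.mem_singleton_self _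
  · intro g n hn h
    exact Subtype.ext (htf g.1 n hn (by
      have := congrArg Subtype.val h
      simpa using this))

/-- The structure of a self-adjoint matrix in terms of the stabilisers of the components. -/
theorem structure_of (A : Matrix ι ι (MonoidAlgebra ℤ G)) (hA : adj A = A)
    (P : Subgroup G → Prop) (hP : ∀ b, P (stb A hA b)) :
    ∃ (ρ : ι → ι) (u : ι → G) (C : ι → Subgroup G),
      (∀ b, P (C b)) ∧ ∀ i j h, (A i j).coeff h ≠ 0 →
        ρ i = ρ j ∧ u i * h * (u j)⁻¹ ∈ C (ρ i) := by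
  classical
  let bs : ι → G × ι := fun i => (1, i)
  let st : Setoid ι :=
    { r := fun p q => ∃ g : G, (gs A hA).Reachable (bs p) (mw g (bs q))
      iseqv := by
        refine ⟨fun p => ⟨1, by rw [mw_one]⟩, ?_, ?_⟩
        · rintro p q ⟨g, hg⟩
          refine ⟨g⁻¹, ?_⟩
          have := reachable_mw hA g⁻¹ hg
          rw [← mw_mul, inv_mul_cancel, mw_one] at this
          exact this.symm
        · rintro p q r ⟨g, hg⟩ ⟨h, hh⟩
          refine ⟨g * h, ?_⟩
          rw [mw_mul]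
          exact hg.trans (reachable_mw hA g hh) }
  let ρ : ι → ι := fun p => (Quotient.mk st p).out
  have hρ : ∀ p, ∃ g : G, (gs A hA).Reachable (bs (ρ p)) (mw g (bs p)) := fun p =>
    Quotient.exact (Quotient.out_eq (Quotient.mk st p))
  choose u hu using hρ
  refine ⟨ρ, u, fun b => stb A hA (bs b), fun b => hP _, ?_⟩
  intro i j h hne
  have hadj : (gs A hA).Reachable (bs i) (mw h (bs j)) := by
    by_cases he : bs i = mw h (bs j)
    · rw [he]
    · apply SimpleGraph.Adj.reachable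
      rw [gs_adj]
      refine ⟨he, ?_⟩
      simpa [bs, mw] using hne
  have heq : ρ i = ρ j := by
    have : Quotient.mk st i = Quotient.mk st j := Quotient.sound ⟨h, hadj⟩
    simp only [ρ, this]
  refine ⟨heq, ?_⟩
  rw [mem_stb]
  have h1 := hu i
  have h2 := reachable_mw hA (u i) hadj
  have h3 := hu j
  rw [← heq] at h3
  have h4 := reachable_mw hA (u i * h * (u j)⁻¹) h3
  have e : mw (u i * h * (u j)⁻¹) (mw (u j) (bs j)) = mw (u i) (mw h (bs j)) := by
    rw [← mw_mul, ← mw_mul]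
    congr 1
    group
  rw [e] at h4
  exact (h1.trans h2).trans h4.symm

/-- Self-adjoint invertible matrices near the real diagonal matrices are zero in `Wh`. -/
theorem TT_near (htf : ∀ g : G, ∀ n : ℕ, 0 < n → g ^ n = 1 → g = 1)
    (A : (Matrix ι ι (MonoidAlgebra ℤ G))ˣ) (hA : adj A.val = A.val) (d : ι → ℝ) (c : ℝ)
    (hc : c < 3 / Real.sqrt 2) (hN : NearDiag A.val d c) : TT (TU G) A := by
  classical
  have hr : 0 < Real.sqrt 2 := Real.sqrt_pos.2 two_pos
  have hr2 : Real.sqrt 2 ^ 2 = 2 := Real.sq_sqrt two_pos.le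
  have hsq : (3 / Real.sqrt 2) ^ 2 = 9 / 2 := by rw [div_pow, hr2]; norm_num
  have h1lt : (1 : ℝ) < 3 / Real.sqrt 2 := by
    rw [lt_div_iff₀ hr]
    nlinarith
  set c' := max c 1 with hc'
  have hc'0 : 0 < c' := lt_max_of_lt_right one_pos
  have hc'2 : c' ^ 2 < 9 / 2 := by
    rw [← hsq]
    exact pow_lt_pow_left₀ (max_lt hc h1lt) hc'0.le two_ne_zero
  have hN' : NearDiag A.val d c' := fun x =>
    (hN x).trans (mul_le_mul_of_nonneg_right (le_max_left _ _) (normSq_nonneg x))
  obtain ⟨ρ, u, C, hC, hst⟩ := structure_of A.val hA (fun S => IsCyclic S) fun b =>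
    stb_cyclic htf A.val hA b (no_tri A.val hA d c' hc'0 hc'2 hN' b)
  let B : (Matrix ι ι (MonoidAlgebra ℤ G))ˣ := dgu u * A * (dgu u)⁻¹
  have hB : ∀ i j, B.val i j
      = MonoidAlgebra.single (u i) 1 * A.val i j * MonoidAlgebra.single (u j)⁻¹ 1 := by
    intro i j
    change (Matrix.diagonal (fun i => MonoidAlgebra.single (u i) (1 : ℤ))
      * A.val * Matrix.diagonal (fun j => MonoidAlgebra.single (u j)⁻¹ (1 : ℤ)) :
        Matrix ι ι (MonoidAlgebra ℤ G)) i j = _
    rw [Matrix.mul_diagonal, Matrix.diagonal_mul]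
  have hBc : ∀ i j g, (B.val i j).coeff g ≠ 0 → ρ i = ρ j ∧ g ∈ C (ρ i) := by
    intro i j g hg
    rw [hB, MonoidAlgebra.coeff_mul_single_apply, MonoidAlgebra.coeff_single_mul_apply, one_mul,
      mul_one, inv_inv] at hg
    have h1 := hst i j _ hg
    refine ⟨h1.1, ?_⟩
    have h2 := h1.2
    have h3 : u i * ((u i)⁻¹ * (g * u j)) * (u j)⁻¹ = g := by group
    rwa [h3] at h2
  have hTB : TT (TU G) B := TT_blocks htf _ ι le_rfl ι ρ C hC B hBc
  have hA2 : A = (dgu u)⁻¹ * B * dgu u := by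
    simp only [B]; group
  rw [hA2]
  exact TT_mul _ _ _ (TT_mul _ _ _ (TT_inv _ _ (TT_dgu htf _)) hTB) (TT_dgu htf _)

end Pool.Agent.H52.SW
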