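import Pool.Agent.H52.SW.Dec
import Pool.Agent.H52.SW.Struct

set_option autoImplicit false
set_option linter.unusedSectionVars false

/-! Every self-adjoint matrix over an integral group ring is stably congruent to one whose norm is
as close to `3 / √2` as one likes. -/

namespace Pool.Agent.H52.SW

open Matrix TH57.Thr TH6.LF

variable {G : Type} [Group G] {κ : Type} [Fintype κ] [DecidableEq κ]

section el

variable {μ : Type} [Fintype μ] [DecidableEq μ]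

theorem el_adj (F : Matrix κ κ (MonoidAlgebra ℤ G)) (hF : F ∈ El (R := MonoidAlgebra ℤ G) κ) :
    adj F ∈ El (R := MonoidAlgebra ℤ G) κ := by
  induction hF using Submonoid.closure_induction with
  | mem x hx =>
    obtain ⟨i, j, hij, a, rfl⟩ := hx
    have : adj (1 + Matrix.single i j a) = 1 + Matrix.single j i (bar a) := by
      rw [adj_add, adj_one]
      congr 1
      ext1 k l
      rw [adj_apply, Matrix.single_apply, Matrix.single_apply]
      by_cases h : i = l ∧ j = k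
      · rw [if_pos h, if_pos ⟨h.2, h.1⟩]
      · rw [if_neg h, if_neg (fun h' => h ⟨h'.2, h'.1⟩), bar_zero]
    rw [this]
    exact el_transv _ _ (Ne.symm hij) _
  | one => rw [adj_one]; exact one_mem _
  | mul x y _ _ hx hy =>
    rw [adj_mul]
    exact mul_mem hy hx

theorem el_ext' (F : Matrix μ μ (MonoidAlgebra ℤ G)) (hF : F ∈ El (R := MonoidAlgebra ℤ G) μ) :
    fromBlocks (1 : Matrix κ κ (MonoidAlgebra ℤ G)) 0 0 F
      ∈ El (R := MonoidAlgebra ℤ G) (κ ⊕ μ) := by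
  have h1 := el_reindex (Equiv.sumComm κ μ) _ (el_ext (μ := κ) F hF)
  convert h1 using 1
  ext (i | i) (j | j) <;> simp [Matrix.one_apply]

end el

section main

variable {p q : Type} [Fintype p] [DecidableEq p] [Fintype q] [DecidableEq q]

theorem adj_dia (s : p → G) (ε : p → ℤ) (h : Sgn s ε) : adj (dia s ε) = dia s ε := by
  ext1 i j
  unfold dia
  rw [adj_apply]
  by_cases hij : i = j
  · subst hij
    rw [Matrix.diagonal_apply_eq, bar_single]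
    rw [inv_eq_of_mul_eq_one_right (h.1 i)]
  · rw [Matrix.diagonal_apply_ne _ hij, Matrix.diagonal_apply_ne _ (Ne.symm hij), bar_zero]

theorem dia_sq (s : p → G) (ε : p → ℤ) (h : Sgn s ε) : dia s ε * dia s ε = 1 := by
  unfold dia
  rw [Matrix.diagonal_mul_diagonal, ← Matrix.diagonal_one]
  congr 1
  funext k
  rw [MonoidAlgebra.single_mul_single, h.1 k, MonoidAlgebra.one_def]
  rcases h.2 k with h1 | h1 <;> rw [h1] <;> rfl

theorem dia_neg (s : p → G) (ε : p → ℤ) : dia s (fun k => -ε k) = -dia s ε := by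
  unfold dia
  ext1 i j
  rw [Matrix.neg_apply]
  by_cases hij : i = j
  · subst hij
    rw [Matrix.diagonal_apply_eq, Matrix.diagonal_apply_eq, MonoidAlgebra.single_neg]
  · rw [Matrix.diagonal_apply_ne _ hij, Matrix.diagonal_apply_ne _ hij, neg_zero]

/-- the standard form -/
noncomputable def JJ (A : Matrix κ κ (MonoidAlgebra ℤ G)) (D : Matrix p p (MonoidAlgebra ℤ G))
    (q : Type) [Fintype q] [DecidableEq q] :
    Matrix ((κ ⊕ q) ⊕ (p ⊕ q)) ((κ ⊕ q) ⊕ (p ⊕ q)) (MonoidAlgebra ℤ G) :=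
  fromBlocks (fromBlocks A 0 0 0) (fromBlocks 0 0 0 1) (fromBlocks 0 0 0 1) (fromBlocks D 0 0 0)

/-- the sparse matrix -/
noncomputable def TM (M : Matrix (p ⊕ q) (κ ⊕ q) (MonoidAlgebra ℤ G))
    (D : Matrix p p (MonoidAlgebra ℤ G)) :
    Matrix ((κ ⊕ q) ⊕ (p ⊕ q)) ((κ ⊕ q) ⊕ (p ⊕ q)) (MonoidAlgebra ℤ G) :=
  fromBlocks 0 (adj M) M (fromBlocks D 0 0 0)

theorem step_a (V : Matrix p κ (MonoidAlgebra ℤ G)) (D : Matrix p p (MonoidAlgebra ℤ G))
    (hD2 : D * D = 1) :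
    TM (fromBlocks V 0 0 (1 : Matrix q q (MonoidAlgebra ℤ G))) (-D)
      = fromBlocks 1 (-(fromBlocks (adj V * D) 0 0 0)) 0 1 * JJ (adj V * D * V) (-D) q
        * fromBlocks 1 0 (-(fromBlocks (D * V) 0 0 0)) 1 := by
  unfold TM JJ
  simp only [fromBlocks_multiply, adj_fromBlocks, adj_one, adj_zero, fromBlocks_neg,
    Matrix.one_mul, Matrix.zero_mul, Matrix.mul_zero, Matrix.mul_one, zero_add, add_zero,
    Matrix.neg_mul, Matrix.mul_neg, neg_zero, neg_neg, fromBlocks_add]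
  rw [Matrix.mul_assoc (adj V) D D, hD2, Matrix.mul_one, ← Matrix.mul_assoc D D V, hD2,
    Matrix.one_mul, ← Matrix.mul_assoc (adj V) D V, add_neg_cancel]
  congr 1
  exact fromBlocks_zero.symm

theorem step_b (V : Matrix p κ (MonoidAlgebra ℤ G)) (D : Matrix p p (MonoidAlgebra ℤ G))
    (X : Matrix p q (MonoidAlgebra ℤ G)) (F : Matrix (κ ⊕ q) (κ ⊕ q) (MonoidAlgebra ℤ G)) :
    TM (fromBlocks V X (0 : Matrix q κ (MonoidAlgebra ℤ G)) 1 * F) D
      = fromBlocks (adj F) 0 0 (fromBlocks 1 X 0 1)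
        * TM (fromBlocks V 0 0 (1 : Matrix q q (MonoidAlgebra ℤ G))) D
        * fromBlocks F 0 0 (fromBlocks 1 0 (adj X) 1) := by
  have h1 : (fromBlocks V X (0 : Matrix q κ (MonoidAlgebra ℤ G)) 1)
      = (fromBlocks 1 X 0 1 : Matrix (p ⊕ q) (p ⊕ q) (MonoidAlgebra ℤ G))
        * fromBlocks V 0 0 (1 : Matrix q q (MonoidAlgebra ℤ G)) := by
    rw [fromBlocks_multiply]; simp
  have h2 : adj (fromBlocks 1 X 0 1 : Matrix (p ⊕ q) (p ⊕ q) (MonoidAlgebra ℤ G))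
      = fromBlocks 1 0 (adj X) 1 := by
    rw [adj_fromBlocks, adj_one, adj_one, adj_zero]
  unfold TM
  rw [fromBlocks_multiply, fromBlocks_multiply]
  simp only [Matrix.zero_mul, Matrix.mul_zero, zero_add, add_zero]
  rw [h1, adj_mul, adj_mul, h2]
  have h3 : (fromBlocks 1 X 0 1 : Matrix (p ⊕ q) (p ⊕ q) (MonoidAlgebra ℤ G))
      * fromBlocks D 0 0 0 * fromBlocks 1 0 (adj X) 1
      = (fromBlocks D 0 0 0 : Matrix (p ⊕ q) (p ⊕ q) (MonoidAlgebra ℤ G)) := by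
    rw [fromBlocks_multiply, fromBlocks_multiply]; simp
  rw [h3]
  simp only [Matrix.mul_assoc]

theorem normSq_dia (s : p → G) (ε : p → ℤ) (h : Sgn s ε) (x : p → MonoidAlgebra ℝ G) :
    normSq (x ᵥ* toReal (dia s ε)) = normSq x := by
  rw [normSq_eq, normSq_eq]
  refine Finset.sum_congr rfl fun k _ => ?_
  have h1 : (x ᵥ* toReal (dia s ε)) k = x k * MonoidAlgebra.single (s k) ((ε k : ℤ) : ℝ) := by
    have h2 : toReal (dia s ε) = Matrix.diagonal fun k =>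
        (MonoidAlgebra.single (s k) ((ε k : ℤ) : ℝ) : MonoidAlgebra ℝ G) := by
      ext1 i j
      unfold toReal dia
      rw [Matrix.map_apply]
      by_cases hij : i = j
      · subst hij
        rw [Matrix.diagonal_apply_eq, Matrix.diagonal_apply_eq, MonoidAlgebra.mapRingHom_single]
        rfl
      · rw [Matrix.diagonal_apply_ne _ hij, Matrix.diagonal_apply_ne _ hij, map_zero]
    rw [h2, Matrix.vecMul_diagonal]
  rw [h1]
  rcases h.2 k with h2 | h2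
  · rw [h2, Int.cast_one, n1_mul_single]
  · rw [h2]
    have : (MonoidAlgebra.single (s k) (((-1 : ℤ)) : ℝ) : MonoidAlgebra ℝ G)
        = -MonoidAlgebra.single (s k) 1 := by
      rw [← MonoidAlgebra.single_neg]; simp
    rw [this, mul_neg, n1_neg, n1_mul_single]

theorem norm_TM (M : Matrix (p ⊕ q) (κ ⊕ q) (MonoidAlgebra ℤ G)) (s : p → G) (ε : p → ℤ)
    (h : Sgn s ε) (c : ℝ) (hc0 : 0 < c) (hc : 9 / 2 < c ^ 2)
    (hM : ∀ x : p ⊕ q → MonoidAlgebra ℝ G, normSq (x ᵥ* toReal M)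
      ≤ 3 / 2 * normSq (x ∘ Sum.inl) + c ^ 2 * normSq (x ∘ Sum.inr)) :
    NearDiag (TM M (dia s ε)) 0 c := by
  intro x
  have h0 : ∑ i, (0 : (κ ⊕ q) ⊕ (p ⊕ q) → ℝ) i * n1 (x i) = 0 := by simp
  rw [h0, sub_zero]
  set y : κ ⊕ q → MonoidAlgebra ℝ G := x ∘ Sum.inl with hy
  set z : p ⊕ q → MonoidAlgebra ℝ G := x ∘ Sum.inr with hz
  set D : Matrix p p (MonoidAlgebra ℤ G) := dia s ε with hD
  have hx : x = Sum.elim y z := (Sum.elim_comp_inl_inr x).symm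
  have h1 : x ᵥ* toReal (TM M D) = Sum.elim (z ᵥ* toReal M)
      (y ᵥ* toReal (adj M) + z ᵥ* toReal (fromBlocks D 0 0 0)) := by
    unfold TM
    rw [toReal_fromBlocks, toReal_zero]
    conv_lhs => rw [hx]
    rw [Matrix.vecMul_fromBlocks]
    simp
  have h2 : z ᵥ* toReal (fromBlocks D 0 0 (0 : Matrix q q (MonoidAlgebra ℤ G)))
      = Sum.elim ((z ∘ Sum.inl) ᵥ* toReal D) 0 := by
    rw [toReal_fromBlocks, toReal_zero, toReal_zero, toReal_zero]
    conv_lhs => rw [← Sum.elim_comp_inl_inr z]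
    rw [Matrix.vecMul_fromBlocks]
    simp
  have h3 : ip (x ᵥ* toReal (TM M D)) x
      = 2 * ip (z ᵥ* toReal M) y + ip ((z ∘ Sum.inl) ᵥ* toReal D) (z ∘ Sum.inl) := by
    rw [ip_elim, h1]
    have e1 : (Sum.elim (z ᵥ* toReal M)
      (y ᵥ* toReal (adj M) + z ᵥ* toReal (fromBlocks D 0 0 0))) ∘ Sum.inl = z ᵥ* toReal M := rfl
    have e2 : (Sum.elim (z ᵥ* toReal M)
      (y ᵥ* toReal (adj M) + z ᵥ* toReal (fromBlocks D 0 0 0))) ∘ Sum.inr
        = y ᵥ* toReal (adj M) + z ᵥ* toReal (fromBlocks D 0 0 0) := rfl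
    rw [e1, e2, ← hy, ← hz, ip_add_left, toReal_adj, ip_comm (y ᵥ* adj (toReal M)) z,
      ← ip_vecMul, h2, ip_elim (Sum.elim ((z ∘ Sum.inl) ᵥ* toReal D) 0) z]
    have e3 : (Sum.elim ((z ∘ Sum.inl) ᵥ* toReal D) (0 : q → MonoidAlgebra ℝ G)) ∘ Sum.inl
        = (z ∘ Sum.inl) ᵥ* toReal D := rfl
    have e4 : (Sum.elim ((z ∘ Sum.inl) ᵥ* toReal D) (0 : q → MonoidAlgebra ℝ G)) ∘ Sum.inr
        = 0 := rfl
    rw [e3, e4, ip_zero_left]
    ring
  have h4 := two_ip_le (z ᵥ* toReal M) y c⁻¹ (inv_pos.2 hc0)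
  rw [inv_inv] at h4
  have h5 := hM z
  have h6 := two_ip_le ((z ∘ Sum.inl) ᵥ* toReal D) (z ∘ Sum.inl) 1 one_pos
  rw [hD, normSq_dia s ε h, inv_one, ← hD] at h6
  have h7 : normSq x = normSq y + (normSq (z ∘ Sum.inl) + normSq (z ∘ Sum.inr)) := by
    rw [normSq_sum x, ← hy, ← hz, normSq_sum z]
  have h8 := normSq_nonneg (z ∘ Sum.inl)
  have h9 : c⁻¹ * normSq (z ᵥ* toReal M)
      ≤ c⁻¹ * (3 / 2 * normSq (z ∘ Sum.inl) + c ^ 2 * normSq (z ∘ Sum.inr)) :=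
    mul_le_mul_of_nonneg_left h5 (inv_nonneg.2 hc0.le)
  have h10 : c⁻¹ * (3 / 2 * normSq (z ∘ Sum.inl) + c ^ 2 * normSq (z ∘ Sum.inr))
      = c⁻¹ * (3 / 2) * normSq (z ∘ Sum.inl) + c * normSq (z ∘ Sum.inr) := by
    field_simp
  have hc2 : 2 ≤ c := by nlinarith
  have h11 : c⁻¹ * (3 / 2) + 1 ≤ c := by
    have : c⁻¹ * (3 / 2) ≤ c - 1 := by
      rw [inv_mul_le_iff₀ hc0]
      nlinarith
    linarith
  have h12 : (c⁻¹ * (3 / 2) + 1) * normSq (z ∘ Sum.inl) ≤ c * normSq (z ∘ Sum.inl) :=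
    mul_le_mul_of_nonneg_right h11 h8
  rw [h3, h7]
  have h13 := abs_le.1 (show |ip (z ᵥ* toReal M) y| ≤ |ip (z ᵥ* toReal M) y| from le_rfl)
  have h14 := abs_le.1 (show |ip ((z ∘ Sum.inl) ᵥ* toReal D) (z ∘ Sum.inl)|
    ≤ |ip ((z ∘ Sum.inl) ᵥ* toReal D) (z ∘ Sum.inl)| from le_rfl)
  rw [abs_le]
  constructor <;> nlinarith

end main

/-- the reindexed standard form `A ⊕ D ⊕ H` -/
noncomputable def JK {p : Type} (A : Matrix κ κ (MonoidAlgebra ℤ G))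
    (D : Matrix p p (MonoidAlgebra ℤ G)) (q : Type) [Fintype q] [DecidableEq q] :
    Matrix (κ ⊕ (p ⊕ (q ⊕ q))) (κ ⊕ (p ⊕ (q ⊕ q))) (MonoidAlgebra ℤ G) :=
  fromBlocks A 0 0 (fromBlocks D 0 0 (fromBlocks 0 1 1 0))

/-- the bijection of the indices -/
def eJ (κ p q : Type) : κ ⊕ (p ⊕ (q ⊕ q)) ≃ (κ ⊕ q) ⊕ (p ⊕ q) where
  toFun := Sum.elim (fun i => Sum.inl (Sum.inl i)) (Sum.elim (fun k => Sum.inr (Sum.inl k))
    (Sum.elim (fun l => Sum.inl (Sum.inr l)) (fun l => Sum.inr (Sum.inr l))))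
  invFun := Sum.elim (Sum.elim (fun i => Sum.inl i) (fun l => Sum.inr (Sum.inr (Sum.inl l))))
    (Sum.elim (fun k => Sum.inr (Sum.inl k)) (fun l => Sum.inr (Sum.inr (Sum.inr l))))
  left_inv := by rintro (i | i | i | i) <;> rfl
  right_inv := by rintro ((i | i) | (i | i)) <;> rfl

theorem JJ_re {p q : Type} [Fintype p] [DecidableEq p] [Fintype q] [DecidableEq q]
    (A : Matrix κ κ (MonoidAlgebra ℤ G)) (D : Matrix p p (MonoidAlgebra ℤ G)) :
    (JJ A D q).submatrix (eJ κ p q) (eJ κ p q) = JK A D q := by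
  ext1 i j
  rcases i with i | i | i | i <;> rcases j with j | j | j | j <;> rfl

theorem NearDiag_re {μ : Type} [Fintype μ] [DecidableEq μ] (e : μ ≃ κ)
    (A : Matrix κ κ (MonoidAlgebra ℤ G)) (d : κ → ℝ) (c : ℝ) (hA : NearDiag A d c) :
    NearDiag (A.submatrix e e) (d ∘ e) c := by
  intro x
  have h1 := hA (x ∘ e.symm)
  have h2 : normSq (x ∘ e.symm) = normSq x := by
    rw [normSq_eq, normSq_eq]
    exact Fintype.sum_equiv e.symm _ _ fun _ => rfl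
  have h3 : x ᵥ* toReal (A.submatrix e e) = ((x ∘ e.symm) ᵥ* toReal A) ∘ e := by
    funext j
    simp only [Matrix.vecMul, dotProduct, Function.comp_apply, toReal, Matrix.map_apply,
      Matrix.submatrix_apply]
    exact Fintype.sum_equiv e _ _ fun i => by simp
  have h4 : ip (((x ∘ e.symm) ᵥ* toReal A) ∘ e) x
      = ip ((x ∘ e.symm) ᵥ* toReal A) (x ∘ e.symm) := by
    unfold ip
    congr 2
    exact Fintype.sum_equiv e _ _ fun i => by simp
  have h5 : ∑ i, (d ∘ e) i * n1 (x i) = ∑ i, d i * n1 ((x ∘ e.symm) i) :=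
    Fintype.sum_equiv e _ _ fun i => by simp
  rw [h3, h4, h5, ← h2]
  exact h1

/-- **Reduction of the norm by congruences.** -/
theorem reduction_sa (A : Matrix κ κ (MonoidAlgebra ℤ G)) (hA : adj A = A) (c : ℝ)
    (hc0 : 0 < c) (hc : 9 / 2 < c ^ 2) :
    ∃ (p q : Type) (_ : Fintype p) (_ : DecidableEq p) (_ : Fintype q) (_ : DecidableEq q)
      (s : p → G) (ε : p → ℤ)
      (E : Matrix (κ ⊕ (p ⊕ (q ⊕ q))) (κ ⊕ (p ⊕ (q ⊕ q))) (MonoidAlgebra ℤ G)),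
      Sgn s ε ∧ E ∈ El (R := MonoidAlgebra ℤ G) (κ ⊕ (p ⊕ (q ⊕ q))) ∧
      NearDiag (E * JK A (dia s ε) q * adj E) 0 c := by
  obtain ⟨p, ip1, ip2, V, s, ε, hs, hV⟩ := dec_of_selfAdj A hA
  obtain ⟨q, iq1, iq2, X, F, hF, hq, hX⟩ := good_all hc V
  have hs' : Sgn s (fun k => -ε k) := ⟨hs.1, fun k => by
    rcases hs.2 k with h | h
    · right; change -ε k = -1; rw [h]
    · left; change -ε k = 1; rw [h]; rfl⟩
  set D := dia s ε with hD
  have hDa : adj D = D := adj_dia s ε hs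
  have hD2 : D * D = 1 := dia_sq s ε hs
  set M := fromBlocks V X (0 : Matrix q κ (MonoidAlgebra ℤ G)) 1 * F with hM
  set Y : Matrix (κ ⊕ q) (p ⊕ q) (MonoidAlgebra ℤ G) := fromBlocks (adj V * D) 0 0 0 with hY
  set E₁ : Matrix ((κ ⊕ q) ⊕ (p ⊕ q)) ((κ ⊕ q) ⊕ (p ⊕ q)) (MonoidAlgebra ℤ G) :=
    fromBlocks 1 (-Y) 0 1 with hE₁
  set P : Matrix (p ⊕ q) (p ⊕ q) (MonoidAlgebra ℤ G) := fromBlocks 1 X 0 1 with hP
  set E₂ : Matrix ((κ ⊕ q) ⊕ (p ⊕ q)) ((κ ⊕ q) ⊕ (p ⊕ q)) (MonoidAlgebra ℤ G) :=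
    fromBlocks (adj F) 0 0 P with hE₂
  have hE₁a : adj E₁ = fromBlocks 1 0 (-(fromBlocks (D * V) 0 0 0)) 1 := by
    rw [hE₁, adj_fromBlocks, adj_one, adj_one, adj_zero, adj_neg, hY, adj_fromBlocks, adj_zero,
      adj_zero, adj_zero, adj_mul, hDa, adj_adj]
  have hE₂a : adj E₂ = fromBlocks F 0 0 (fromBlocks 1 0 (adj X) 1) := by
    rw [hE₂, adj_fromBlocks, adj_adj, adj_zero, adj_zero, hP, adj_fromBlocks, adj_one, adj_one,
      adj_zero]
  have hT : TM M (-D) = (E₂ * E₁) * JJ A (-D) q * adj (E₂ * E₁) := by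
    rw [hM, step_b V (-D) X F, step_a V D hD2, adj_mul, hE₁a, hE₂a, ← hY, ← hE₁, ← hP, ← hE₂,
      ← hV]
    simp only [Matrix.mul_assoc]
  have hE₁e : E₁ ∈ El (R := MonoidAlgebra ℤ G) ((κ ⊕ q) ⊕ (p ⊕ q)) := by
    have h1 : E₁ = 1 + fromBlocks 0 (-Y) 0 0 := by
      rw [← fromBlocks_one, fromBlocks_add, hE₁]; simp
    rw [h1]
    refine el_unip (Finset.univ.filter fun v : (κ ⊕ q) ⊕ (p ⊕ q) => v.isLeft) _ ?_
    rintro (i | i) (j | j) h <;> simp at h ⊢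
  have hPe : P ∈ El (R := MonoidAlgebra ℤ G) (p ⊕ q) := by
    have h1 : P = 1 + fromBlocks 0 X 0 0 := by
      rw [← fromBlocks_one, fromBlocks_add, hP]; simp
    rw [h1]
    refine el_unip (Finset.univ.filter fun v : p ⊕ q => v.isLeft) _ ?_
    rintro (i | i) (j | j) h <;> simp at h ⊢
  have hE₂e : E₂ ∈ El (R := MonoidAlgebra ℤ G) ((κ ⊕ q) ⊕ (p ⊕ q)) := by
    have h1 : E₂ = fromBlocks (adj F) 0 0 1 * fromBlocks 1 0 0 P := by
      rw [fromBlocks_multiply, hE₂]; simp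
    rw [h1]
    exact mul_mem (el_ext _ (el_adj F hF)) (el_ext' P hPe)
  have hnorm : NearDiag (TM M (dia s fun k => -ε k)) 0 c := norm_TM M s _ hs' c hc0 hc hX
  refine ⟨p, q, ip1, ip2, iq1, iq2, s, fun k => -ε k,
    (E₂ * E₁).submatrix (eJ κ p q) (eJ κ p q), hs', el_reindex _ _ (mul_mem hE₂e hE₁e), ?_⟩
  have h1 : (E₂ * E₁).submatrix (eJ κ p q) (eJ κ p q) * JK A (dia s fun k => -ε k) q
      * adj ((E₂ * E₁).submatrix (eJ κ p q) (eJ κ p q))
      = (TM M (dia s fun k => -ε k)).submatrix (eJ κ p q) (eJ κ p q) := by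
    rw [adj_submatrix, ← JJ_re, Matrix.submatrix_mul_equiv, Matrix.submatrix_mul_equiv, dia_neg,
      ← hD, hT]
  rw [h1]
  exact NearDiag_re (eJ κ p q) _ 0 c hnorm

end Pool.Agent.H52.SW
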