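import Pool.Agent.H52.SW.Up
import Pool.Graph.R_seed8.Y75.Th.Init
import Pool.Graph.R_seed8.TH6.CX.Fin

set_option autoImplicit false
set_option linter.unusedSectionVars false

/-! Classes of self-adjoint matrices in the Whitehead group. -/

namespace Pool.Agent.H52.SW

open Matrix TH57.Thr TH6.LF TH6.CX Pool.Agent.Y75.Th
open scoped commutatorElement

section gen

variable {R : Type} [Ring R] (U : Subgroup Rˣ) {κ μ ν : Type} [Fintype κ] [DecidableEq κ]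
  [Fintype μ] [DecidableEq μ] [Fintype ν] [DecidableEq ν]

/-- block diagonal units -/
def blk (a : (Matrix κ κ R)ˣ) (b : (Matrix μ μ R)ˣ) : (Matrix (κ ⊕ μ) (κ ⊕ μ) R)ˣ where
  val := fromBlocks a.val 0 0 b.val
  inv := fromBlocks a⁻¹.val 0 0 b⁻¹.val
  val_inv := by
    rw [fromBlocks_multiply]
    simp [← fromBlocks_one]
  inv_val := by
    rw [fromBlocks_multiply]
    simp [← fromBlocks_one]

theorem blk_val (a : (Matrix κ κ R)ˣ) (b : (Matrix μ μ R)ˣ) :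
    (blk a b).val = fromBlocks a.val 0 0 b.val := rfl

theorem blk_mul (a a' : (Matrix κ κ R)ˣ) (b b' : (Matrix μ μ R)ˣ) :
    blk (a * a') (b * b') = blk a b * blk a' b' := by
  apply Units.ext
  rw [Units.val_mul, blk_val, blk_val, blk_val, fromBlocks_multiply]
  simp

theorem blk_inv (a : (Matrix κ κ R)ˣ) (b : (Matrix μ μ R)ˣ) : (blk a b)⁻¹ = blk a⁻¹ b⁻¹ :=
  Units.ext rfl

theorem TT_blk (a : (Matrix κ κ R)ˣ) (b : (Matrix μ μ R)ˣ) (ha : TT U a) (hb : TT U b) :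
    TT U (blk a b) := TT_tri U a b 0 _ rfl ha hb

theorem TT_blk_right (a : (Matrix κ κ R)ˣ) (b : (Matrix μ μ R)ˣ) (h : TT U (blk a b))
    (hb : TT U b) : TT U a := by
  apply TT_unst (μ := μ) U
  have h1 : Units.map (stm μ) a = blk a b * blk 1 b⁻¹ := by
    rw [← blk_mul, mul_inv_cancel, mul_one]
    exact Units.ext rfl
  rw [h1]
  exact TT_mul U _ _ h (TT_blk U _ _ (TT_one U) (TT_inv U _ hb))

theorem TT_blk_inv (a : (Matrix κ κ R)ˣ) : TT U (blk a a⁻¹) := by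
  have h1 : blk a a⁻¹ = ⁅blk a (1 : (Matrix κ κ R)ˣ), pu (R := R) (Equiv.sumComm κ κ)⁆ := by
    rw [commutatorElement_def]
    have h2 : pu (R := R) (Equiv.sumComm κ κ) * (blk a (1 : (Matrix κ κ R)ˣ))⁻¹
        * (pu (Equiv.sumComm κ κ))⁻¹ = blk (1 : (Matrix κ κ R)ˣ) a⁻¹ := by
      rw [← re_eq, blk_inv]
      apply Units.ext
      ext (i | i) (j | j) <;> simp [re, blk, Matrix.one_apply]
    rw [mul_assoc, mul_assoc, ← mul_assoc (pu (R := R) (Equiv.sumComm κ κ)), h2, ← blk_mul]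
    simp
  rw [h1]
  refine TT_of_mem U _ (commutator_le_HH U ?_)
  rw [commutator_def]
  exact Subgroup.commutator_mem_commutator (Subgroup.mem_top _) (Subgroup.mem_top _)

theorem TT_assoc (a : (Matrix κ κ R)ˣ) (b : (Matrix μ μ R)ˣ) (c : (Matrix ν ν R)ˣ)
    (h : TT U (blk (blk a b) c)) : TT U (blk a (blk b c)) := by
  have h1 := TT_re U (Equiv.sumAssoc κ μ ν).symm _ h
  convert h1 using 1
  apply Units.ext
  ext (i | i | i) (j | j | j) <;> simp [re, blk]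

end gen

variable {G : Type} [Group G] {κ : Type} [Fintype κ] [DecidableEq κ]

theorem pu_swap (q : Type) [Fintype q] [DecidableEq q] :
    (pu (R := MonoidAlgebra ℤ G) (Equiv.sumComm q q)).val = fromBlocks 0 1 1 0 := by
  ext (i | i) (j | j) <;> simp [pu, Matrix.one_apply]

/-- the congruence at the level of the Whitehead group -/
theorem reduction_wh (A : (Matrix κ κ (MonoidAlgebra ℤ G))ˣ) (hA : adj A.val = A.val) (c : ℝ)
    (hc0 : 0 < c) (hc : 9 / 2 < c ^ 2) :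
    ∃ (μ : Type) (_ : Fintype μ) (_ : DecidableEq μ) (T : (Matrix μ μ (MonoidAlgebra ℤ G))ˣ),
      adj T.val = T.val ∧ NearDiag T.val 0 c ∧ TT (TU G) (blk A T⁻¹) := by
  obtain ⟨p, q, ip1, ip2, iq1, iq2, s, ε, E, hs, hE, hN⟩ := reduction_sa A.val hA c hc0 hc
  have hε : ∀ k, ε k * ε k = 1 := fun k => by rcases hs.2 k with h | h <;> rw [h] <;> norm_num
  obtain ⟨e, he, heT⟩ := El_unit E hE
  obtain ⟨f, hf, hfT⟩ := El_unit (adj E) (el_adj E hE)
  set K : (Matrix (p ⊕ (q ⊕ q)) (p ⊕ (q ⊕ q)) (MonoidAlgebra ℤ G))ˣ :=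
    blk (dgs s ε hε) (pu (Equiv.sumComm q q)) with hK
  have hKT : TT (TU G) K := TT_blk _ _ _ (TT_of_mem _ _ (dgs_mem s ε hε)) (TT_pu _)
  have hJ : (blk A K).val = JK A.val (dia s ε) q := by
    rw [hK, blk_val, blk_val, pu_swap]
    rfl
  set T := e * blk A K * f with hT
  have hTv : T.val = E * JK A.val (dia s ε) q * adj E := by
    rw [hT, Units.val_mul, Units.val_mul, he, hf, hJ]
  refine ⟨κ ⊕ (p ⊕ (q ⊕ q)), inferInstance, inferInstance, T, ?_, ?_, ?_⟩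
  · rw [hTv, adj_mul, adj_mul, adj_adj, ← Matrix.mul_assoc]
    congr 2
    unfold JK
    rw [adj_fromBlocks, adj_fromBlocks, adj_fromBlocks, hA, adj_dia s ε hs]
    simp only [adj_zero, adj_one]
  · rw [hTv]; exact hN
  · have h1 : T⁻¹ = f⁻¹ * blk A⁻¹ K⁻¹ * e⁻¹ := by
      rw [hT, _root_.mul_inv_rev, _root_.mul_inv_rev, blk_inv, mul_assoc]
    have h2 : blk A T⁻¹ = blk 1 f⁻¹ * blk A (blk A⁻¹ K⁻¹) * blk 1 e⁻¹ := by
      rw [h1, ← blk_mul, ← blk_mul, one_mul, mul_one]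
    rw [h2]
    refine TT_mul _ _ _ (TT_mul _ _ _ (TT_blk _ _ _ (TT_one _) (TT_inv _ _ (hfT _))) ?_)
      (TT_blk _ _ _ (TT_one _) (TT_inv _ _ (heT _)))
    exact TT_assoc _ _ _ _ (TT_blk _ _ _ (TT_blk_inv _ A) (TT_inv _ _ hKT))

end Pool.Agent.H52.SW
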